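import Pool.Agent.H79.PJ.RepPs
import Pool.Agent.H79.PB.Cplx

/-!
# Joint continuity of rational maps on the sphere; attraction in the good directions at all attracted points
-/

set_option autoImplicit false

open Filter Topology Polynomial Metric Set

namespace Pool.Agent.H79.PJ

open Pool.Agent.H44.Fatou Pool.Agent.H32.BT Pool.Agent.H79.Eul Pool.Agent.H79.Par Pool.Agent.H79.PB

theorem ev_joint {d : ℕ} : Continuous (fun w : (Fin (d + 1) → ℂ) × ℂ => ev w.1 w.2) := by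
  unfold ev
  fun_prop

theorem rf_coe {d : ℕ} (w : E d) (z : ℂ) :
    Rf w (z : OnePoint ℂ) = pt (ev w.1 z) (ev w.2 z) := by
  unfold Rf
  rw [rat_coe, pol_eval, pol_eval]

/-- the value of a form in the chart at infinity -/
noncomputable def er {d : ℕ} (p : Fin (d + 1) → ℂ) (s : ℂ) : ℂ := ∑ i, p i * s ^ (d - (i : ℕ))

theorem er_joint {d : ℕ} : Continuous (fun w : (Fin (d + 1) → ℂ) × ℂ => er w.1 w.2) := by
  unfold er
  fun_prop

theorem er_inv {d : ℕ} (p : Fin (d + 1) → ℂ) {z : ℂ} (hz : z ≠ 0) :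
    ev p z = er p z⁻¹ * z ^ d := by
  unfold ev er
  rw [Finset.sum_mul]
  refine Finset.sum_congr rfl fun i _ => ?_
  have hi : (i : ℕ) ≤ d := Nat.lt_succ_iff.1 i.2
  have h1 : z ^ d = z ^ (d - (i : ℕ)) * z ^ (i : ℕ) := by
    rw [← pow_add, Nat.sub_add_cancel hi]
  rw [h1, inv_pow, mul_assoc, ← mul_assoc (z ^ (d - (i : ℕ)))⁻¹,
    inv_mul_cancel₀ (pow_ne_zero _ hz), one_mul]

theorem er_zero {d : ℕ} (p : Fin (d + 1) → ℂ) : er p 0 = p (Fin.last d) := by
  unfold er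
  rw [Finset.sum_eq_single (Fin.last d)]
  · rw [Fin.val_last, Nat.sub_self, pow_zero, mul_one]
  · intro i _ hi
    have h1 : (i : ℕ) < d := by
      rcases Nat.lt_succ_iff_lt_or_eq.1 i.2 with h | h
      · exact h
      · exact absurd (Fin.ext h) hi
    rw [zero_pow (by omega), mul_zero]
  · intro h
    exact absurd (Finset.mem_univ _) h

theorem pol_coeff_last {d : ℕ} (p : Fin (d + 1) → ℂ) : (pol p).coeff d = p (Fin.last d) := by
  have h := congrFun (cf_pol (d := d) p) (Fin.last d)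
  exact h

theorem rf_inf {d : ℕ} {w : E d}
    (hdeg : max (pol w.1).natDegree (pol w.2).natDegree = d) :
    Rf w OnePoint.infty = pt (w.1 (Fin.last d)) (w.2 (Fin.last d)) := by
  unfold Rf
  rw [rat_infty]
  have h1 : dg (pol w.1) (pol w.2) = d := hdeg
  rw [h1, pol_coeff_last, pol_coeff_last]

theorem last_ne' {d : ℕ} {w : E d} (hcop : IsCoprime (pol w.1) (pol w.2))
    (hdeg : max (pol w.1).natDegree (pol w.2).natDegree = d) :
    w.1 (Fin.last d) ≠ 0 ∨ w.2 (Fin.last d) ≠ 0 := by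
  have h := coeff_dg hcop
  have h1 : dg (pol w.1) (pol w.2) = d := hdeg
  rwa [h1, pol_coeff_last, pol_coeff_last] at h

/-- joint continuity -/
theorem rf_joint {d : ℕ} (hd : 1 ≤ d) {v0 : E d} (hcop : IsCoprime (pol v0.1) (pol v0.2))
    (hdeg : max (pol v0.1).natDegree (pol v0.2).natDegree = d) (x : OnePoint ℂ) :
    Tendsto (fun w : E d × OnePoint ℂ => Rf w.1 w.2) (𝓝 v0 ×ˢ 𝓝 x) (𝓝 (Rf v0 x)) := by
  have hfst : Tendsto (fun w : E d × ℂ => w.1) (𝓝 v0 ×ˢ cocompact ℂ) (𝓝 v0) := tendsto_fst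
  induction x using OnePoint.rec with
  | coe z =>
    have h1 : Tendsto (fun w : E d × ℂ => Rf w.1 (w.2 : OnePoint ℂ)) (𝓝 v0 ×ˢ 𝓝 z)
        (𝓝 (Rf v0 (z : OnePoint ℂ))) := by
      have h2 : Tendsto (fun w : E d × ℂ => ev w.1.1 w.2) (𝓝 v0 ×ˢ 𝓝 z) (𝓝 (ev v0.1 z)) := by
        rw [← nhds_prod_eq]
        have h3 : Continuous (fun w : E d × ℂ => ev w.1.1 w.2) :=
          ev_joint.comp ((continuous_fst.comp continuous_fst).prodMk continuous_snd)
        exact h3.tendsto (v0, z)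
      have h4 : Tendsto (fun w : E d × ℂ => ev w.1.2 w.2) (𝓝 v0 ×ˢ 𝓝 z) (𝓝 (ev v0.2 z)) := by
        rw [← nhds_prod_eq]
        have h3 : Continuous (fun w : E d × ℂ => ev w.1.2 w.2) :=
          ev_joint.comp ((continuous_snd.comp continuous_fst).prodMk continuous_snd)
        exact h3.tendsto (v0, z)
      have h5 := coprime_eval hcop z
      rw [pol_eval, pol_eval] at h5
      rw [rf_coe]
      refine (tendsto_pt h2 h4 h5).congr fun w => ?_
      exact (rf_coe w.1 w.2).symm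
    rw [OnePoint.nhds_coe_eq]
    have h6 : (𝓝 v0 ×ˢ map ((↑) : ℂ → OnePoint ℂ) (𝓝 z)) =
        map (fun w : E d × ℂ => (w.1, (w.2 : OnePoint ℂ))) (𝓝 v0 ×ˢ 𝓝 z) := by
      have := Filter.prod_map_map_eq (f₁ := 𝓝 v0) (f₂ := 𝓝 z) (m₁ := (id : E d → E d))
        (m₂ := ((↑) : ℂ → OnePoint ℂ))
      rw [Filter.map_id] at this
      exact this
    rw [h6, tendsto_map'_iff]
    exact h1
  | infty =>
    rw [OnePoint.nhds_infty_eq, Filter.prod_sup, tendsto_sup]
    constructor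
    · have h6 : (𝓝 v0 ×ˢ map ((↑) : ℂ → OnePoint ℂ) (coclosedCompact ℂ)) =
          map (fun w : E d × ℂ => (w.1, (w.2 : OnePoint ℂ))) (𝓝 v0 ×ˢ coclosedCompact ℂ) := by
        have := Filter.prod_map_map_eq (f₁ := 𝓝 v0) (f₂ := coclosedCompact ℂ)
          (m₁ := (id : E d → E d)) (m₂ := ((↑) : ℂ → OnePoint ℂ))
        rw [Filter.map_id] at this
        exact this
      rw [h6, tendsto_map'_iff, coclosedCompact_eq_cocompact]
      have hinv : Tendsto (fun w : E d × ℂ => w.2⁻¹) (𝓝 v0 ×ˢ cocompact ℂ) (𝓝 0) := by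
        have h7 : Tendsto (fun z : ℂ => z⁻¹) (cocompact ℂ) (𝓝 0) := by
          rw [← Metric.cobounded_eq_cocompact]
          exact tendsto_inv₀_cobounded
        exact h7.comp tendsto_snd
      have h2 : Tendsto (fun w : E d × ℂ => er w.1.1 w.2⁻¹) (𝓝 v0 ×ˢ cocompact ℂ)
          (𝓝 (er v0.1 0)) := by
        have h3 : Tendsto (fun w : E d × ℂ => (w.1.1, w.2⁻¹)) (𝓝 v0 ×ˢ cocompact ℂ)
            (𝓝 (v0.1, 0)) :=
          ((continuous_fst.tendsto v0).comp hfst).prodMk_nhds hinv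
        have h10 := ((er_joint (d := d)).tendsto (v0.1, (0 : ℂ))).comp h3
        exact h10
      have h4 : Tendsto (fun w : E d × ℂ => er w.1.2 w.2⁻¹) (𝓝 v0 ×ˢ cocompact ℂ)
          (𝓝 (er v0.2 0)) := by
        have h3 : Tendsto (fun w : E d × ℂ => (w.1.2, w.2⁻¹)) (𝓝 v0 ×ˢ cocompact ℂ)
            (𝓝 (v0.2, 0)) :=
          ((continuous_snd.tendsto v0).comp hfst).prodMk_nhds hinv
        have h10 := ((er_joint (d := d)).tendsto (v0.2, (0 : ℂ))).comp h3
        exact h10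
      rw [rf_inf hdeg, ← er_zero v0.1, ← er_zero v0.2]
      have h5 : er v0.1 0 ≠ 0 ∨ er v0.2 0 ≠ 0 := by
        rw [er_zero, er_zero]
        exact last_ne' hcop hdeg
      refine (tendsto_pt h2 h4 h5).congr' ?_
      have h8 : ∀ᶠ z : ℂ in cocompact ℂ, z ≠ 0 := by
        rw [← Metric.cobounded_eq_cocompact]
        have := (tendsto_inv₀_cobounded' (α := ℂ)).eventually (self_mem_nhdsWithin)
        filter_upwards [this] with z hz h0
        apply hz
        simp [h0]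
      have h9 : ∀ᶠ w : E d × ℂ in 𝓝 v0 ×ˢ cocompact ℂ, w.2 ≠ 0 := tendsto_snd.eventually h8
      filter_upwards [h9] with w hw
      show pt (er w.1.1 w.2⁻¹) (er w.1.2 w.2⁻¹) = Rf w.1 (w.2 : OnePoint ℂ)
      rw [rf_coe, er_inv w.1.1 hw, er_inv w.1.2 hw, pt_smul (pow_ne_zero _ hw)]
    · rw [Filter.prod_pure, tendsto_map'_iff]
      have h2 : Tendsto (fun w : E d => pt (w.1 (Fin.last d)) (w.2 (Fin.last d))) (𝓝 v0)
          (𝓝 (pt (v0.1 (Fin.last d)) (v0.2 (Fin.last d)))) := by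
        refine tendsto_pt ?_ ?_ (last_ne' hcop hdeg)
        · exact ((continuous_apply (Fin.last d)).comp continuous_fst).tendsto v0
        · exact ((continuous_apply (Fin.last d)).comp continuous_snd).tendsto v0
      rw [rf_inf hdeg]
      refine h2.congr' ?_
      filter_upwards [cop_near hcop hdeg hd] with w hw
      exact (rf_inf hw.2).symm

theorem rf_joint_iter {d : ℕ} (hd : 1 ≤ d) {v0 : E d} (hcop : IsCoprime (pol v0.1) (pol v0.2))
    (hdeg : max (pol v0.1).natDegree (pol v0.2).natDegree = d) (x : OnePoint ℂ) (n : ℕ) :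
    Tendsto (fun w : E d × OnePoint ℂ => (Rf w.1)^[n] w.2) (𝓝 v0 ×ˢ 𝓝 x)
      (𝓝 ((Rf v0)^[n] x)) := by
  induction n with
  | zero => exact tendsto_snd
  | succ n ih =>
    have h1 : Tendsto (fun w : E d × OnePoint ℂ => (w.1, (Rf w.1)^[n] w.2)) (𝓝 v0 ×ˢ 𝓝 x)
        (𝓝 v0 ×ˢ 𝓝 ((Rf v0)^[n] x)) := tendsto_fst.prodMk ih
    have h2 := (rf_joint hd hcop hdeg ((Rf v0)^[n] x)).comp h1
    rw [Function.iterate_succ_apply']
    refine h2.congr fun w => ?_
    rw [Function.iterate_succ_apply']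
    rfl

/-- every attracted point is mapped by an iterate into a basin with finite orbits -/
theorem fa_basin {d : ℕ} {v0 : E d} (hper : NPer v0) {x : OnePoint ℂ} (hx : x ∈ Fa v0)
    (_hcont : Continuous (Rf v0)) :
    ∃ (j : ℕ) (y : ℂ), (Rf v0)^[j] x = (y : OnePoint ℂ) ∧ Basin v0 y := by
  obtain ⟨z, n, hT⟩ := hx
  have hn : 0 < n ∧ (Rf v0)^[n] z = z := by
    rcases hT with h3 | ⟨hn, hfix, -⟩
    · exact ⟨h3.1.1, h3.1.2.1⟩
    · exact ⟨hn, Pool.Agent.H80.AJ.fixMult_fix hfix⟩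
  have hzf : ∀ j, (Rf v0)^[j] z ≠ OnePoint.infty := by
    intro j hj
    apply hper n hn.1
    rw [← hj, ← Function.iterate_add_apply, Nat.add_comm, Function.iterate_add_apply, hn.2]
  -- infinity is hit at most once
  obtain ⟨j0, hj0⟩ : ∃ j0, ∀ j ≥ j0, (Rf v0)^[j] x ≠ OnePoint.infty := by
    by_cases h : ∃ j, (Rf v0)^[j] x = OnePoint.infty
    · obtain ⟨j, hj⟩ := h
      refine ⟨j + 1, fun i hi hii => ?_⟩
      apply hper (i - j) (by omega)
      have h1 : i = (i - j) + j := by omega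
      rw [h1, Function.iterate_add_apply, hj] at hii
      exact hii
    · push Not at h
      exact ⟨0, fun j _ => h j⟩
  -- pass to a multiple of `n`
  obtain ⟨j1, hj1, hj1n⟩ : ∃ j1, j0 ≤ j1 ∧ ∃ k, j1 = n * k :=
    ⟨n * j0, Nat.le_mul_of_pos_left j0 hn.1, j0, rfl⟩
  obtain ⟨y, hy⟩ := OnePoint.ne_infty_iff_exists.1 (hj0 j1 hj1)
  obtain ⟨z', hz'⟩ := OnePoint.ne_infty_iff_exists.1 (hzf 0)
  rw [Function.iterate_zero, id] at hz'
  obtain ⟨k, hk⟩ := hj1n
  have htend : ∀ {x : OnePoint ℂ}, Tendsto (fun k : ℕ => (Rf v0)^[n * k] x) atTop (𝓝 z) →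
      Tendsto (fun i : ℕ => (Rf v0)^[n * i] ((Rf v0)^[j1] x)) atTop (𝓝 z) := by
    intro x h
    refine (h.comp (tendsto_add_atTop_nat k)).congr fun i => ?_
    simp only [Function.comp_apply]
    rw [← Function.iterate_add_apply, hk, Nat.mul_add]
  refine ⟨j1, y, hy.symm, z', n, ?_, ?_, ?_⟩
  · rw [hy, hz']
    rcases hT with ⟨h1, h2⟩ | ⟨h1, h2, h3, h4⟩
    · exact Or.inl ⟨h1, htend h2⟩
    · refine Or.inr ⟨h1, h2, htend h3, fun i hi => ?_⟩
      rw [← Function.iterate_add_apply, hk, ← Nat.mul_add] at hi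
      exact h4 _ hi
  · intro j
    rw [hy, ← Function.iterate_add_apply]
    exact hj0 _ (by omega)
  · intro j
    rw [hz']
    exact hzf j

/-- attraction in the good directions near every attracted point -/
theorem rob_any {d : ℕ} (hd : 1 ≤ d) {v0 v : E d} (hcop : IsCoprime (pol v0.1) (pol v0.2))
    (hdeg : max (pol v0.1).natDegree (pol v0.2).natDegree = d) (hper : NPer v0) {K : Set ℂ}
    (hK : IsCompact K) (h : ∀ e ∈ K, RobDir v0 (e • v)) {x : OnePoint ℂ} (hx : x ∈ Fa v0) :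
    ∃ η : ℝ, 0 < η ∧ ∀ᶠ y in 𝓝 x, ∀ t : ℂ, 0 < ‖t‖ → ‖t‖ < η → t / (‖t‖ : ℂ) ∈ K →
      Att (Rf (v0 + t • v)) y := by
  have hcont : Continuous (Rf v0) := rat_continuous hcop
  obtain ⟨j, y, hj, hy⟩ := fa_basin hper hx hcont
  obtain ⟨η, hη, hb⟩ := rob_cpt hK h hy
  have h1 := rf_joint_iter hd hcop hdeg x j
  rw [hj, OnePoint.nhds_coe_eq] at h1
  have h2 : ∀ᶠ w : E d × OnePoint ℂ in 𝓝 v0 ×ˢ 𝓝 x, ∃ u ∈ ball y η,
      (Rf w.1)^[j] w.2 = (u : OnePoint ℂ) := by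
    have h3 : {p : OnePoint ℂ | ∃ u ∈ ball y η, p = (u : OnePoint ℂ)} ∈
        map ((↑) : ℂ → OnePoint ℂ) (𝓝 y) := by
      rw [mem_map]
      filter_upwards [ball_mem_nhds y hη] with u hu
      exact ⟨u, hu, rfl⟩
    exact h1 h3
  obtain ⟨pa, hpa, pb, hpb, hab⟩ := Filter.eventually_prod_iff.mp (h2.and
    (tendsto_fst.eventually (cop_near hcop hdeg hd)))
  have hw0 : Tendsto (fun t : ℂ => v0 + t • v) (𝓝 0) (𝓝 v0) := by
    have h4 : Continuous (fun t : ℂ => v0 + t • v) := by fun_prop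
    have h5 := h4.tendsto 0
    rwa [zero_smul, add_zero] at h5
  obtain ⟨η', hη', hb'⟩ := Metric.eventually_nhds_iff_ball.1 (hw0.eventually hpa)
  refine ⟨min η η', lt_min hη hη', ?_⟩
  filter_upwards [hpb] with y' hy' t ht0 ht1 ht2
  have h6 := hb' t (by rw [mem_ball_zero_iff]; exact ht1.trans_le (min_le_right _ _))
  obtain ⟨⟨u, hu, hu2⟩, hcw, -⟩ := hab h6 hy'
  have h7 := hb t ht0 (ht1.trans_le (min_le_left _ _)) ht2 u hu
  have hcont' : Continuous (Rf (v0 + t • v)) := rat_continuous hcw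
  have hu3 : (Rf (v0 + t • v))^[j] y' = (u : OnePoint ℂ) := hu2
  rw [← hu3] at h7
  exact (Pool.Agent.H44.DN.att_iter (f := Rf (v0 + t • v)) hcont' j y').mp h7

end Pool.Agent.H79.PJ
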