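import Pool.Agent.H79.PQ.QDf
import Pool.Agent.H79.PB.GermSect
import Pool.Agent.H44.DN.PAF

/-!
# Families: discs in the attracted set are good

`fcomp`: away from `J`; `comp1`: discs which are small relatively to the distance from `Pa`, around a point which is
not in `V1` or not near `J`.
-/

set_option autoImplicit false

open Filter Topology Metric Set

namespace Pool.Agent.H44.DP

theorem fcomp (D : Ps) (X : Fam D) {δ1 R : ℝ} (hδ : 0 < δ1) : ∃ ε : ℝ, 0 < ε ∧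
    ∀ u ∈ ball (0 : ℂ) ε, u ≠ 0 → u / (‖u‖ : ℂ) ∈ X.Kd → ∀ n : ℕ,
      (∀ i < n, X.g i u ∈ thickening D.δ D.J) → ‖X.g n u‖ ≤ R →
      X.g n u ∉ thickening δ1 D.J → X.P u := by
  classical
  have hK : IsCompact (closedBall (0 : ℂ) R \ thickening δ1 D.J) :=
    (isCompact_closedBall (0 : ℂ) R).diff isOpen_thickening
  have key : ∃ ε : ℝ, 0 < ε ∧ ∀ u ∈ ball (0 : ℂ) ε, u ≠ 0 → u / (‖u‖ : ℂ) ∈ X.Kd → ∀ n : ℕ,
      (∀ i < n, X.g i u ∈ thickening D.δ D.J) →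
        X.g n u ∈ closedBall (0 : ℂ) R \ thickening δ1 D.J → X.P u := by
    refine hK.induction_on (p := fun K : Set ℂ => ∃ ε : ℝ, 0 < ε ∧ ∀ u ∈ ball (0 : ℂ) ε,
      u ≠ 0 → u / (‖u‖ : ℂ) ∈ X.Kd → ∀ n : ℕ,
      (∀ i < n, X.g i u ∈ thickening D.δ D.J) → X.g n u ∈ K → X.P u) ?_ ?_ ?_ ?_
    · exact ⟨1, one_pos, fun u _ _ _ n _ h => absurd h (notMem_empty _)⟩
    · rintro s t hst ⟨ε, hε, h⟩
      exact ⟨ε, hε, fun u hu h01 h02 n h1 h2 => h u hu h01 h02 n h1 (hst h2)⟩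
    · rintro s t ⟨ε, hε, h⟩ ⟨ε', hε', h'⟩
      refine ⟨min ε ε', lt_min hε hε', fun u hu h01 h02 n h1 h2 => ?_⟩
      rcases h2 with h2 | h2
      · exact h u (ball_subset_ball (min_le_left _ _) hu) h01 h02 n h1 h2
      · exact h' u (ball_subset_ball (min_le_right _ _) hu) h01 h02 n h1 h2
    · intro z hz
      have hzJ : z ∉ D.J := fun hzJ => hz.2 (self_subset_thickening hδ D.J hzJ)
      obtain ⟨ε, hε, h⟩ := X.att z hzJ
      exact ⟨ball z ε, mem_nhdsWithin_of_mem_nhds (ball_mem_nhds z hε), ε, hε, h⟩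
  obtain ⟨ε, hε, h⟩ := key
  exact ⟨ε, hε, fun u hu h01 h02 n h1 h2 h3 =>
    h u hu h01 h02 n h1 ⟨mem_closedBall_zero_iff.2 h2, h3⟩⟩

/-- uniformity over a finite set -/
theorem fin_unif {Pa : Finset ℂ} {Q : ℂ → ℝ → Prop}
    (hmono : ∀ p r r', 0 < r' → r' ≤ r → Q p r → Q p r')
    (h : ∀ p ∈ Pa, ∃ r : ℝ, 0 < r ∧ Q p r) : ∃ r : ℝ, 0 < r ∧ ∀ p ∈ Pa, Q p r := by
  classical
  have key : ∀ s : Finset ℂ, s ⊆ Pa → ∃ r : ℝ, 0 < r ∧ ∀ p ∈ s, Q p r := by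
    intro s
    induction s using Finset.induction_on with
    | empty => exact fun _ => ⟨1, one_pos, fun p hp => absurd hp (Finset.notMem_empty p)⟩
    | insert a s _ ih =>
      intro hs
      obtain ⟨r1, hr1, h1⟩ := ih ((Finset.subset_insert a s).trans hs)
      obtain ⟨r2, hr2, h2⟩ := h a (hs (Finset.mem_insert_self a s))
      refine ⟨min r1 r2, lt_min hr1 hr2, fun p hp => ?_⟩
      rcases Finset.mem_insert.1 hp with h3 | h3
      · rw [h3]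
        exact hmono a r2 _ (lt_min hr1 hr2) (min_le_right _ _) h2
      · exact hmono p r1 _ (lt_min hr1 hr2) (min_le_left _ _) (h1 p h3)
  exact key Pa subset_rfl

/-- `atp`, uniformly over the parabolic points -/
theorem atp_unif (D : Ps) (X : Fam D) {ε : ℝ} (hε : 0 < ε) : ∃ s : ℝ, 0 < s ∧ ∀ p ∈ D.Pa,
    ∀ u ∈ ball (0 : ℂ) s, u ≠ 0 → u / (‖u‖ : ℂ) ∈ X.Kd →
    ∀ n : ℕ, (∀ i < n, X.g i u ∈ thickening D.δ D.J) →
      s⁻¹ * (‖u‖ ^ X.M) ^ (((D.qp p + 1 : ℕ) : ℝ)⁻¹) ≤ ‖X.g n u - p‖ → ‖X.g n u - p‖ ≤ s →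
        (D.ap p * (X.g n u - p) ^ D.qp p).re ≤ (1 - ε) * ‖D.ap p * (X.g n u - p) ^ D.qp p‖ →
          X.P u := by
  refine fin_unif (Q := fun p s => ∀ u ∈ ball (0 : ℂ) s, u ≠ 0 → u / (‖u‖ : ℂ) ∈ X.Kd →
    ∀ n : ℕ, (∀ i < n, X.g i u ∈ thickening D.δ D.J) →
      s⁻¹ * (‖u‖ ^ X.M) ^ (((D.qp p + 1 : ℕ) : ℝ)⁻¹) ≤ ‖X.g n u - p‖ → ‖X.g n u - p‖ ≤ s →
        (D.ap p * (X.g n u - p) ^ D.qp p).re ≤ (1 - ε) * ‖D.ap p * (X.g n u - p) ^ D.qp p‖ →
          X.P u) ?_ ?_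
  · intro p r r' hr' hrr hQ u hu h0 hd n hn h1 h2 h3
    refine hQ u (ball_subset_ball hrr hu) h0 hd n hn ?_ (h2.trans hrr) h3
    refine le_trans (mul_le_mul_of_nonneg_right ?_ (by positivity)) h1
    exact inv_anti₀ hr' hrr
  · intro p hp
    obtain ⟨r, K0, hr, hK0, h⟩ := X.atp p hp ε hε
    refine ⟨min r K0⁻¹, by positivity, fun u hu h0 hd n hn h1 h2 h3 => ?_⟩
    refine h u (ball_subset_ball (min_le_left _ _) hu) h0 hd n hn ?_
      (h2.trans (min_le_left _ _)) h3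
    refine le_trans (mul_le_mul_of_nonneg_right ?_ (by positivity)) h1
    have h4 : min r K0⁻¹ ≤ K0⁻¹ := min_le_right _ _
    have h5 := inv_anti₀ (lt_min hr (inv_pos.2 hK0)) h4
    rwa [inv_inv] at h5

/-- powers near `0` -/
theorem pow_cmp {β κ c : ℝ} (hβ : κ < β) (hc : 0 < c) : ∃ ρ : ℝ, 0 < ρ ∧ ∀ y : ℝ, 0 < y → y < ρ →
    y ^ β ≤ c * y ^ κ := by
  have hγ : 0 < β - κ := by linarith
  refine ⟨c ^ (1 / (β - κ)), by positivity, fun y hy hyρ => ?_⟩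
  have h1 : y ^ β = y ^ (β - κ) * y ^ κ := by
    rw [← Real.rpow_add hy]
    ring_nf
  rw [h1]
  refine mul_le_mul_of_nonneg_right ?_ (by positivity)
  have h2 : y ^ (β - κ) ≤ (c ^ (1 / (β - κ))) ^ (β - κ) :=
    Real.rpow_le_rpow hy.le hyρ.le hγ.le
  rwa [← Real.rpow_mul hc.le, one_div_mul_cancel hγ.ne', Real.rpow_one] at h2

theorem pow_unif (D : Ps) {κ c : ℝ} (hκ : ∀ p ∈ D.Pa, κ * ((D.qp p : ℝ) + 1) < 1) (hc : 0 < c) :
    ∃ ρ : ℝ, 0 < ρ ∧ ∀ p ∈ D.Pa, ∀ y : ℝ, 0 < y → y < ρ →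
      y ^ (((D.qp p + 1 : ℕ) : ℝ)⁻¹) ≤ c * y ^ κ := by
  refine fin_unif (Q := fun p ρ => ∀ y : ℝ, 0 < y → y < ρ →
      y ^ (((D.qp p + 1 : ℕ) : ℝ)⁻¹) ≤ c * y ^ κ) ?_ ?_
  · intro p r r' _ hrr hQ y hy hy2
    exact hQ y hy (hy2.trans_le hrr)
  · intro p hp
    refine pow_cmp ?_ hc
    have h1 := hκ p hp
    have h0 : (0 : ℝ) < ((D.qp p + 1 : ℕ) : ℝ) := by positivity
    rw [← one_div, lt_div_iff₀ h0]
    push_cast
    exact h1

/-- the cone condition is stable -/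
theorem cone_close {a x y : ℂ} {q : ℕ} {ε l : ℝ} (hε : 0 < ε) (hε1 : ε ≤ 1) (hl : 0 ≤ l)
    (hl1 : 2 ^ q * l ≤ ε / 4) (hx : x ≠ 0) (hxy : ‖y - x‖ ≤ l * ‖x‖)
    (h : (a * x ^ q).re ≤ (1 - ε) * ‖a * x ^ q‖) :
    (a * y ^ q).re ≤ (1 - ε / 4) * ‖a * y ^ q‖ := by
  have hl2 : l ≤ 1 := by
    have h1 : (1 : ℝ) ≤ 2 ^ q := one_le_pow₀ (by norm_num)
    nlinarith
  have h1 := Pool.Agent.H44.DN.paf_pow hl hl2 hxy q
  have hxq : x ^ q ≠ 0 := pow_ne_zero _ hx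
  have h2 : a * y ^ q = (a * x ^ q) * (1 + (y ^ q - x ^ q) / x ^ q) := by
    field_simp
    ring
  rw [h2]
  refine Pool.Agent.H79.PB.cone_pert hε hε1 ?_ h
  rw [norm_div, norm_pow, div_le_iff₀ (pow_pos (norm_pos_iff.2 hx) _)]
  refine h1.trans ?_
  refine mul_le_mul_of_nonneg_right ?_ (by positivity)
  nlinarith

theorem comp1 (D : Ps) (X : Fam D) {κ d1 R : ℝ} (_hκ : 0 < κ)
    (hκq : ∀ p ∈ D.Pa, κ * ((D.qp p : ℝ) + 1) < 1) (hd1 : 0 < d1) :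
    ∃ ρ1 s1 : ℝ, 0 < ρ1 ∧ 0 < s1 ∧ ∀ (u x : ℂ) (n : ℕ), ‖u‖ < ρ1 → u ≠ 0 →
      u / (‖u‖ : ℂ) ∈ X.Kd → (∀ i < n, X.g i u ∈ thickening D.δ D.J) → ‖x‖ ≤ R →
      (x ∉ D.V1 ∨ x ∉ thickening d1 D.J) → (‖u‖ ^ X.M) ^ κ ≤ D.dd x →
      ‖X.g n u - x‖ ≤ s1 * D.dd x → X.P u := by
  have hε1 := D.hε1
  have hϑ := D.hϑ
  have hr0 := D.hr0
  obtain ⟨ε2, hε2⟩ : ∃ ε2, ε2 = min D.ε1 1 := ⟨_, rfl⟩
  have hε20 : 0 < ε2 := by rw [hε2]; exact lt_min hε1 one_pos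
  have hε21 : ε2 ≤ 1 := by rw [hε2]; exact min_le_right _ _
  have hε22 : ε2 ≤ D.ε1 := by rw [hε2]; exact min_le_left _ _
  obtain ⟨s, hs, hatp⟩ := atp_unif D X (ε := ε2 / 4) (by positivity)
  obtain ⟨r', hr'⟩ : ∃ r', r' = min (s / 2) (min D.r0 d1) := ⟨_, rfl⟩
  have hr'0 : 0 < r' := by rw [hr']; positivity
  have hr's : r' ≤ s / 2 := by rw [hr']; exact min_le_left _ _
  have hr'r : r' ≤ D.r0 := by rw [hr']; exact (min_le_right _ _).trans (min_le_left _ _)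
  have hr'd : r' ≤ d1 := by rw [hr']; exact (min_le_right _ _).trans (min_le_right _ _)
  obtain ⟨t0, ht0⟩ : ∃ t0, t0 = min d1 (D.ϑ / 2 * r') := ⟨_, rfl⟩
  have ht00 : 0 < t0 := by rw [ht0]; positivity
  obtain ⟨εc, hεc, hfc⟩ := fcomp D X (δ1 := t0 / 2) (R := R + 1) (by positivity)
  obtain ⟨ρc, hρc, hpc⟩ := pow_unif D hκq (c := s / 2) (by positivity)
  obtain ⟨s1, hs1⟩ : ∃ s1, s1 = min (1 / 2) (min (t0 / 2) (ε2 / (4 * 2 ^ D.Qx))) := ⟨_, rfl⟩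
  have hs10 : 0 < s1 := by rw [hs1]; positivity
  have hs1a : s1 ≤ 1 / 2 := by rw [hs1]; exact min_le_left _ _
  have hs1b : s1 ≤ t0 / 2 := by rw [hs1]; exact (min_le_right _ _).trans (min_le_left _ _)
  have hs1c : s1 ≤ ε2 / (4 * 2 ^ D.Qx) := by
    rw [hs1]; exact (min_le_right _ _).trans (min_le_right _ _)
  refine ⟨min (min εc s) (min ρc 1), s1, by positivity, hs10, ?_⟩
  intro u x n hu hu0 hdir hn hxR hx hκx hgx
  have hu1 : ‖u‖ < εc := hu.trans_le ((min_le_left _ _).trans (min_le_left _ _))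
  have hu2 : ‖u‖ < s := hu.trans_le ((min_le_left _ _).trans (min_le_right _ _))
  have hu3 : ‖u‖ < ρc := hu.trans_le ((min_le_right _ _).trans (min_le_left _ _))
  have hu4 : ‖u‖ < 1 := hu.trans_le ((min_le_right _ _).trans (min_le_right _ _))
  have hupos : 0 < ‖u‖ := norm_pos_iff.2 hu0
  have hdd1 := dd_le_one D x
  have hdd0 := dd_nonneg D x
  rcases le_or_gt r' (D.dd x) with hA | hB
  · -- away from the parabolic points
    have hxt : x ∉ thickening t0 D.J := by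
      intro h
      rcases hx with h1 | h1
      · rw [mem_thickening_iff] at h
        obtain ⟨y, hy, hxy⟩ := h
        have h2 := V1_far D h1 y hy
        rw [dist_eq_norm] at hxy
        have h3 : t0 ≤ D.ϑ / 2 * r' := by rw [ht0]; exact min_le_right _ _
        have h4 : D.ϑ / 2 * r' ≤ D.ϑ / 2 * D.dd x := mul_le_mul_of_nonneg_left hA (by positivity)
        linarith
      · exact h1 (thickening_mono (by rw [ht0]; exact min_le_left _ _) _ h)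
    have hgx1 : ‖X.g n u - x‖ ≤ t0 / 2 := by
      have : s1 * D.dd x ≤ s1 * 1 := mul_le_mul_of_nonneg_left hdd1 hs10.le
      linarith
    refine hfc u (mem_ball_zero_iff.2 hu1) hu0 hdir n hn ?_ ?_
    · have h1 : ‖X.g n u‖ ≤ ‖X.g n u - x‖ + ‖x‖ := by
        have := norm_add_le (X.g n u - x) x
        rwa [sub_add_cancel] at this
      have h2 : s1 * D.dd x ≤ 1 / 2 * 1 := mul_le_mul hs1a hdd1 hdd0 (by norm_num)
      linarith
    · intro h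
      apply hxt
      rw [mem_thickening_iff] at h ⊢
      obtain ⟨y, hy, hgy⟩ := h
      refine ⟨y, hy, ?_⟩
      rw [dist_eq_norm] at hgy ⊢
      have h1 : ‖x - y‖ ≤ ‖X.g n u - x‖ + ‖X.g n u - y‖ := by
        have := norm_sub_le_norm_sub_add_norm_sub x (X.g n u) y
        rwa [norm_sub_rev x (X.g n u)] at this
      linarith
  · -- near a parabolic point
    rcases dd_ex D x with h1 | ⟨p, hp, h1⟩
    · exfalso
      have h2 := D.hr1
      have h3 := D.hδ1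
      rw [h1] at hB
      linarith
    · have hpS : p ∈ D.S := (D.hS p).2 (Or.inr hp)
      have hpJ : p ∈ D.J := D.hSJ p hpS
      have hxp : ‖x - p‖ < r' := by rw [← h1]; exact hB
      have hxV : x ∉ D.V1 := by
        rcases hx with h2 | h2
        · exact h2
        · exfalso
          apply h2
          rw [mem_thickening_iff]
          refine ⟨p, hpJ, ?_⟩
          rw [dist_eq_norm]
          linarith
      have hxpos : 0 < ‖x - p‖ := by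
        rw [← h1]
        exact lt_of_lt_of_le (by positivity) hκx
      have hcone := D.hVe p hp x (by rw [mem_ball, dist_eq_norm]; linarith) hxV
      have hcone2 : (D.ap p * (x - p) ^ D.qp p).re ≤
          (1 - ε2) * ‖D.ap p * (x - p) ^ D.qp p‖ := by
        refine hcone.trans (mul_le_mul_of_nonneg_right (by linarith) (norm_nonneg _))
      have hqQ : D.qp p ≤ D.Qx := by
        unfold Ps.Qx
        exact Finset.single_le_sum (f := fun p => D.qp p) (fun i _ => Nat.zero_le _) hp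
      have hclose : ‖(X.g n u - p) - (x - p)‖ ≤ s1 * ‖x - p‖ := by
        rw [sub_sub_sub_cancel_right, ← h1]
        exact hgx
      have h2q : 2 ^ D.qp p * s1 ≤ ε2 / 4 := by
        have h3 : (2 : ℝ) ^ D.qp p ≤ 2 ^ D.Qx := pow_le_pow_right₀ (by norm_num) hqQ
        calc (2 : ℝ) ^ D.qp p * s1 ≤ 2 ^ D.Qx * (ε2 / (4 * 2 ^ D.Qx)) :=
              mul_le_mul h3 hs1c hs10.le (by positivity)
          _ = ε2 / 4 := by field_simp
      have hcone3 := cone_close hε20 hε21 hs10.le h2q (norm_pos_iff.1 hxpos) hclose hcone2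
      have hlow : ‖x - p‖ / 2 ≤ ‖X.g n u - p‖ := by
        have h3 : ‖x - p‖ ≤ ‖(X.g n u - p) - (x - p)‖ + ‖X.g n u - p‖ := by
          have := norm_sub_le (X.g n u - p) ((X.g n u - p) - (x - p))
          rw [sub_sub_cancel] at this
          linarith
        nlinarith
      have hup : ‖X.g n u - p‖ ≤ 2 * ‖x - p‖ := by
        have h3 : ‖X.g n u - p‖ ≤ ‖(X.g n u - p) - (x - p)‖ + ‖x - p‖ := by
          have := norm_add_le ((X.g n u - p) - (x - p)) (x - p)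
          rwa [sub_add_cancel] at this
        nlinarith
      refine hatp p hp u (mem_ball_zero_iff.2 hu2) hu0 hdir n hn ?_ (by linarith) hcone3
      have hyM : ‖u‖ ^ X.M < ρc :=
        (pow_le_of_le_one hupos.le hu4.le (by have := X.hM; omega)).trans_lt hu3
      have h3 := hpc p hp (‖u‖ ^ X.M) (by positivity) hyM
      calc s⁻¹ * (‖u‖ ^ X.M) ^ (((D.qp p + 1 : ℕ) : ℝ)⁻¹)
          ≤ s⁻¹ * (s / 2 * (‖u‖ ^ X.M) ^ κ) := mul_le_mul_of_nonneg_left h3 (by positivity)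
        _ = (‖u‖ ^ X.M) ^ κ / 2 := by field_simp
        _ ≤ ‖x - p‖ / 2 := by rw [← h1]; linarith
        _ ≤ ‖X.g n u - p‖ := hlow

end Pool.Agent.H44.DP
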