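import Pool.Agent.H44.DN.LIMU

/-!
# The limit argument for good scales

`limp_core`: functions on the unit disc which are uniformly bounded and uniformly not constant spend little measure
near a compact null set. `ray_null`: the repelling rays are a null set, `ray_far`: the points far from the rays satisfy
a cone condition.
-/

set_option autoImplicit false

open Filter Topology Metric Set
open scoped Pointwise

namespace Pool.Agent.H44.DP

open Pool.Agent.H44.DN (limu_ex limu_null limu_fatou)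

open MeasureTheory in
theorem limp_core {h : ℕ → ℂ → ℂ} {s0 R ε : ℝ} (hs0 : 0 < s0) (hε : 0 < ε)
    (hd : ∀ k, DifferentiableOn ℂ (h k) (ball 0 1)) (hB : ∀ k, ∀ z ∈ ball (0 : ℂ) 1, ‖h k z‖ ≤ R)
    (hex : ∀ k, ∃ η ∈ ball (0 : ℂ) (1 / 2), s0 ≤ ‖h k η - h k 0‖) {Z : Set ℂ}
    (hZ : IsCompact Z) (hZ0 : volume Z = 0) (u : ℕ → ℂ) (ρ : ℕ → ℝ) (hρ : ∀ k, 0 < ρ k)
    (Bad : ℕ → Set ℂ) (hbad : ∀ t : ℝ, 0 < t → ∃ k0 : ℕ, ∀ k ≥ k0, ∀ η ∈ ball (0 : ℂ) (3 / 4),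
      h k η ∉ thickening t Z → u k + (ρ k : ℂ) * η ∉ Bad k) :
    ∃ k, volume (ball (u k) (3 / 4 * ρ k) ∩ Bad k) ≤ ENNReal.ofReal (ε * ρ k ^ 2) := by
  obtain ⟨σ, Ψ, hσ, hΨ, hlim, hnc⟩ := limu_ex (h := h) (s0 := s0) (R := R) (ρ' := 7 / 8)
    hd hB hex (by norm_num) (by norm_num)
  obtain ⟨t, ht, n, hn⟩ := limu_fatou (h := fun k η => h (σ k) η)
    hZ (fun k => hd (σ k)) hΨ hlim (limu_null hs0 hΨ hnc hZ0) hε
  obtain ⟨k0, hk0⟩ := hbad t ht
  obtain ⟨k, hk⟩ : ∃ k, k = max n k0 := ⟨_, rfl⟩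
  have hkσ : k0 ≤ σ k := by
    rw [hk]
    exact (le_max_right n k0).trans (hσ.le_apply)
  have hB' := hn k (by rw [hk]; exact le_max_left _ _)
  refine ⟨σ k, ?_⟩
  have hsub : ball (u (σ k)) (3 / 4 * ρ (σ k)) ∩ Bad (σ k) ⊆
      u (σ k) +ᵥ ((ρ (σ k) : ℝ) • {η : ℂ | η ∈ ball (0 : ℂ) (3 / 4) ∧
        h (σ k) η ∈ thickening t Z}) := by
    rintro x ⟨hx1, hx2⟩
    have hne : (ρ (σ k) : ℂ) ≠ 0 := Complex.ofReal_ne_zero.2 (hρ (σ k)).ne'
    have e1 : u (σ k) + (ρ (σ k) : ℂ) * ((x - u (σ k)) / (ρ (σ k) : ℂ)) = x := by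
      rw [mul_div_cancel₀ _ hne]
      ring
    have hη : (x - u (σ k)) / (ρ (σ k) : ℂ) ∈ ball (0 : ℂ) (3 / 4) := by
      rw [mem_ball, dist_eq_norm] at hx1
      rw [mem_ball_zero_iff, norm_div, Complex.norm_real, Real.norm_of_nonneg (hρ (σ k)).le,
        div_lt_iff₀ (hρ (σ k))]
      linarith
    refine ⟨x - u (σ k), ⟨(x - u (σ k)) / (ρ (σ k) : ℂ), ⟨hη, ?_⟩, ?_⟩, ?_⟩
    · by_contra hnot
      have h1 := hk0 (σ k) hkσ _ hη hnot
      rw [e1] at h1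
      exact h1 hx2
    · change (ρ (σ k) : ℝ) • ((x - u (σ k)) / (ρ (σ k) : ℂ)) = x - u (σ k)
      rw [Complex.real_smul, mul_div_cancel₀ _ hne]
    · change u (σ k) + (x - u (σ k)) = x
      ring
  have h1 := (measure_mono (μ := volume) hsub)
  rw [measure_vadd, Measure.addHaar_smul, Complex.finrank_real_complex] at h1
  have h2 : ENNReal.ofReal |ρ (σ k) ^ 2| * ENNReal.ofReal ε =
      ENNReal.ofReal (ε * ρ (σ k) ^ 2) := by
    rw [← ENNReal.ofReal_mul (abs_nonneg _), abs_of_nonneg (sq_nonneg _), mul_comm]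
  have h3 : ENNReal.ofReal |ρ (σ k) ^ 2| * volume {η : ℂ | η ∈ ball (0 : ℂ) (3 / 4) ∧
        h (σ k) η ∈ thickening t Z} ≤
      ENNReal.ofReal |ρ (σ k) ^ 2| * ENNReal.ofReal ε := by gcongr
  rw [h2] at h3
  exact h1.trans h3

/-- the rays -/
def Ray (a : ℂ) (q : ℕ) : Set ℂ := {w : ℂ | (a * w ^ q).re = ‖a * w ^ q‖}

theorem ray_closed (a : ℂ) (q : ℕ) : IsClosed (Ray a q) :=
  isClosed_eq (by fun_prop) (by fun_prop)

open MeasureTheory in
theorem ray_null {a : ℂ} (ha : a ≠ 0) {q : ℕ} (hq : 1 ≤ q) : volume (Ray a q) = 0 := by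
  have hline : volume ({z : ℂ | z.im = 0}) = 0 := by
    have h1 : ({z : ℂ | z.im = 0}) = (Complex.measurableEquivRealProd ⁻¹'
        (Set.univ ×ˢ ({0} : Set ℝ))) := by
      ext z
      simp [Complex.measurableEquivRealProd_apply]
    rw [h1, Complex.volume_preserving_equiv_real_prod.measure_preimage
      ((MeasurableSet.univ.prod (measurableSet_singleton _)).nullMeasurableSet)]
    rw [Measure.volume_eq_prod, Measure.prod_prod]
    simp
  -- on each ball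
  have hball : ∀ R : ℕ, volume (Ray a q ∩ ball 0 ((R : ℝ) + 1)) = 0 := by
    intro R
    have hR : (0 : ℝ) < (R : ℝ) + 1 := by positivity
    have hRc : (((R : ℝ) + 1 : ℝ) : ℂ) ≠ 0 := Complex.ofReal_ne_zero.2 hR.ne'
    have h1 := Pool.Agent.H44.LD.pre_null
      (Ψ := fun η : ℂ => a * ((((R : ℝ) + 1 : ℝ) : ℂ) * η) ^ q) (S := {z : ℂ | z.im = 0})
      (by fun_prop) (by
        intro hc
        have h2 := hc (1 / 2) (by
          rw [mem_ball_zero_iff]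
          norm_num)
        simp only [mul_zero, zero_pow (show q ≠ 0 by omega)] at h2
        have h3 : a * ((((R : ℝ) + 1 : ℝ) : ℂ) * (1 / 2)) ^ q ≠ 0 :=
          mul_ne_zero ha (pow_ne_zero _ (mul_ne_zero hRc (by norm_num)))
        exact h3 h2) hline
    have h2 : Ray a q ∩ ball 0 ((R : ℝ) + 1) ⊆
        ((R : ℝ) + 1) • {η : ℂ | η ∈ ball (0 : ℂ) 1 ∧
          a * ((((R : ℝ) + 1 : ℝ) : ℂ) * η) ^ q ∈ {z : ℂ | z.im = 0}} := by
      rintro w ⟨hw1, hw2⟩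
      have e1 : (((R : ℝ) + 1 : ℝ) : ℂ) * (w / (((R : ℝ) + 1 : ℝ) : ℂ)) = w :=
        mul_div_cancel₀ _ hRc
      refine ⟨w / (((R : ℝ) + 1 : ℝ) : ℂ), ⟨?_, ?_⟩, ?_⟩
      · rw [mem_ball_zero_iff] at hw2 ⊢
        rw [norm_div, Complex.norm_real, Real.norm_of_nonneg hR.le, div_lt_one hR]
        exact hw2
      · rw [e1]
        have h3 : (a * w ^ q).re = ‖a * w ^ q‖ := hw1
        show (a * w ^ q).im = 0
        have h4 : ‖a * w ^ q‖ ^ 2 = (a * w ^ q).re * (a * w ^ q).re +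
            (a * w ^ q).im * (a * w ^ q).im := by
          rw [Complex.sq_norm, Complex.normSq_apply]
        rw [← h3] at h4
        have h5 : (a * w ^ q).im * (a * w ^ q).im = 0 := by nlinarith
        exact mul_self_eq_zero.1 h5
      · show ((R : ℝ) + 1) • (w / (((R : ℝ) + 1 : ℝ) : ℂ)) = w
        rw [Complex.real_smul]
        exact e1
    refine measure_mono_null h2 ?_
    rw [Measure.addHaar_smul, h1, mul_zero]
  have h3 : Ray a q ⊆ ⋃ R : ℕ, (Ray a q ∩ ball 0 ((R : ℝ) + 1)) := by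
    intro w hw
    rw [mem_iUnion]
    obtain ⟨n, hn⟩ := exists_nat_gt ‖w‖
    refine ⟨n, hw, ?_⟩
    rw [mem_ball_zero_iff]
    linarith
  exact measure_mono_null h3 (measure_iUnion_null hball)

/-- far from the rays -/
theorem ray_far {a : ℂ} (ha : a ≠ 0) {q : ℕ} (hq : 1 ≤ q) {B t : ℝ} (ht : 0 < t) :
    ∃ ε : ℝ, 0 < ε ∧ ∀ w : ℂ, ‖w‖ ≤ B → w ∉ thickening t (Ray a q ∩ closedBall 0 B) →
      t ≤ ‖w‖ ∧ (a * w ^ q).re ≤ (1 - ε) * ‖a * w ^ q‖ := by
  by_cases hB : 0 ≤ B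
  swap
  · refine ⟨1, one_pos, fun w hw => ?_⟩
    exact absurd ((norm_nonneg w).trans hw) hB
  have h0 : (0 : ℂ) ∈ Ray a q ∩ closedBall 0 B := by
    refine ⟨?_, mem_closedBall_self hB⟩
    show (a * 0 ^ q).re = ‖a * 0 ^ q‖
    rw [zero_pow (by omega), mul_zero, norm_zero, Complex.zero_re]
  have hK : IsCompact (closedBall (0 : ℂ) B \ thickening t (Ray a q ∩ closedBall 0 B)) :=
    (isCompact_closedBall 0 B).diff isOpen_thickening
  have hF : Continuous fun w : ℂ => ‖a * w ^ q‖ - (a * w ^ q).re := by fun_prop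
  obtain ⟨m, hm, hmF⟩ : ∃ m : ℝ, 0 < m ∧ ∀ w ∈ closedBall (0 : ℂ) B \ thickening t
      (Ray a q ∩ closedBall 0 B), m ≤ ‖a * w ^ q‖ - (a * w ^ q).re := by
    rcases (closedBall (0 : ℂ) B \ thickening t (Ray a q ∩ closedBall 0 B)).eq_empty_or_nonempty
      with he | hne
    · exact ⟨1, one_pos, fun w hw => by rw [he] at hw; exact absurd hw (notMem_empty _)⟩
    · obtain ⟨w0, hw0, hmin⟩ := hK.exists_isMinOn hne hF.continuousOn
      refine ⟨‖a * w0 ^ q‖ - (a * w0 ^ q).re, ?_, fun w hw => hmin hw⟩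
      have h1 := Complex.re_le_norm (a * w0 ^ q)
      rcases lt_or_eq_of_le h1 with h2 | h2
      · linarith
      · have h3 : w0 ∈ Ray a q ∩ closedBall (0 : ℂ) B := ⟨h2, hw0.1⟩
        exact absurd (self_subset_thickening ht _ h3) hw0.2
  obtain ⟨S, hS⟩ : ∃ S : ℝ, S = ‖a‖ * B ^ q + 1 := ⟨_, rfl⟩
  have hS0 : 0 < S := by rw [hS]; positivity
  refine ⟨m / S, by positivity, fun w hw hwt => ?_⟩
  have hwK : w ∈ closedBall (0 : ℂ) B \ thickening t (Ray a q ∩ closedBall 0 B) :=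
    ⟨mem_closedBall_zero_iff.2 hw, hwt⟩
  have h1 := hmF w hwK
  constructor
  · by_contra hcon
    apply hwt
    rw [mem_thickening_iff]
    refine ⟨0, h0, ?_⟩
    rw [dist_zero_right]
    exact not_le.1 hcon
  · have h2 : ‖a * w ^ q‖ ≤ S := by
      rw [hS, norm_mul, norm_pow]
      have h3 : ‖w‖ ^ q ≤ B ^ q := pow_le_pow_left₀ (norm_nonneg _) hw q
      have h4 : ‖a‖ * ‖w‖ ^ q ≤ ‖a‖ * B ^ q := mul_le_mul_of_nonneg_left h3 (norm_nonneg _)
      linarith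
    have h3 : m / S * ‖a * w ^ q‖ ≤ m := by
      rw [div_mul_eq_mul_div, div_le_iff₀ hS0]
      exact mul_le_mul_of_nonneg_left h2 hm.le
    linarith

end Pool.Agent.H44.DP
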