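import Pool.Agent.H79.PQ.Fcm
import Pool.Agent.H79.PJ.RepA
import Pool.Agent.H79.PJ.MainP
import Pool.Agent.H79.PB.DirExh
import Pool.Agent.H44.DP.NUL3
import Pool.Agent.H44.DN.DFB
import Pool.Agent.H44.DN.DDY
import Pool.Agent.H44.LD.ACO
import Pool.Agent.H44.LD.CEGOOD
import Pool.Agent.H44.LD.CELINE

/-!
# Full density on almost every line, parabolic version

`d_line_p`: the perturbations `v0 + s ^ M • v` of a map with a Collet-Eckmann critical point which does not land: the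
proportion of the parameters `s` for which the critical points near `c` are not all attracted tends to `0`, for almost
every `v`. `p_good`: `PGood`.
-/

set_option autoImplicit false

open Filter Topology Polynomial Metric Set MeasureTheory

namespace Pool.Agent.H79.PJ

open Pool.Agent.H44.Fatou Pool.Agent.H32.BT Pool.Agent.H79.Eul Pool.Agent.H79.Par Pool.Agent.H79.PB
open Pool.Agent.H35.RL Pool.Agent.H35.EX Pool.Agent.H91.CE Pool.Agent.H44.LD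
open Pool.Agent.H44.DP (Ps PsA dS)

theorem jp_inv {d : ℕ} {v0 : E d} (h : Hyp v0) : Inv v0 (JP v0) :=
  ⟨h.jp_cpt, fun _ hz => (jp_step h.hcop h.hper h.hinf hz).1,
    fun _ hz => (jp_step h.hcop h.hper h.hinf hz).2.2⟩

theorem d_line_p {d : ℕ} {v0 : E d} (h : Hyp v0) (h0 : Chart0 v0) {c : ℂ}
    (hw : wv v0 c = 0) (hcJ : c ∈ JP v0) (hcn : ∀ m : ℕ, it v0 m c ∉ PP v0) {δ : ℝ} (_hδ : 0 < δ)
    (hone : ∀ z ∈ closedBall c δ, wv v0 z = 0 → z = c) :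
    ∃ M : ℕ, 1 ≤ M ∧ ∀ᵐ v : E d, Tendsto (fun j : ℕ => volume (ball (0 : ℂ) 1 ∩
      {η : ℂ | ¬ AC c δ (v0 + ((rad j : ℂ) * η) ^ M • v)})) atTop (𝓝 0) := by
  classical
  have hd := h.hd
  have hcop := h.hcop
  have hdeg := h.hdeg
  obtain ⟨N, X, hR, hXA⟩ := mk_repA h hw hcJ hcn
  have hJ : X.toPs.J = JP v0 := by
    ext z
    rw [Pool.Agent.H44.DP.J_compl X z, hXA]
    rfl
  have hnull : volume X.toPs.J = 0 := Pool.Agent.H44.DP.null_J X
  have hJF : X.toPs.J = JF v0 := hR.J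
  have hcC : c ∈ X.toPs.Ce := by
    refine (hR.Ce c).2 ⟨(hR.Cr c).2 ⟨?_, 0, hR.hN, hw⟩, hcn⟩
    rw [← hJF, hJ]
    exact hcJ
  have hcCr : c ∈ X.toPs.Cr := ((hR.Ce c).1 hcC).1
  have hK : Inv v0 (JP v0) := jp_inv h
  have hW : volume {z : ℂ | ¬ Basin v0 z} = 0 := by
    refine basin_ae hd h0 (measure_mono_null ?_ (hJ ▸ hnull))
    intro z hz
    exact hz
  have hcK : ∀ j, it v0 j c ∈ JP v0 := fun j => h.jp_map j hcJ
  have hbd : Dense {z : ℂ | Basin v0 z} :=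
    Measure.dense_of_ae (μ := (volume : Measure ℂ)) (ae_iff.2 hW)
  have hden : ∀ i, ev v0.2 (it v0 i c) ≠ 0 := fun i => hK.den _ (hcK i)
  have horb : ∀ j, Orb v0 (fun j => it v0 j c) j := fun j i _ => ⟨hden i, rfl⟩
  obtain ⟨k, hk⟩ : ∃ k : ℕ, k = N * X.toPs.τ c := ⟨_, rfl⟩
  have hk1 : 1 ≤ k := by rw [hk]; exact Nat.mul_pos hR.hN (X.toPs.hτ c hcCr)
  have hkG : Gr v0 (it v0 k c) := by
    obtain ⟨C, q1, hC, hq1, -, hg⟩ := rep_gr h hR hcC
    refine ⟨1 / C, q1, by positivity, hq1, fun n => ?_⟩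
    have h1 := hg n
    rw [← hk] at h1
    rw [one_div, inv_mul_le_iff₀ hC]
    exact h1
  have hzf : {c : ℂ | wv v0 c = 0}.Finite := Pool.Agent.H91.CE.wv_ne hd hcop hdeg
  have hne : ¬ ∀ z, wv v0 z = 0 := by
    intro h
    have h2 : {c : ℂ | wv v0 c = 0} = Set.univ := by
      ext z
      simp [h z]
    rw [h2] at hzf
    exact Set.infinite_univ hzf
  obtain ⟨m, hm1, hmfl, hmbr⟩ := crit_branch hw hne
  refine ⟨m, hm1, ?_⟩
  have hκne := Pool.Agent.H91.CE.kap_ne hd h0 hK (x := fun j => it v0 j c) horb hcK hw hk1 hkG hbd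
  have hκnull := kap_null hK (x := fun j => it v0 j c) horb (hcK _) hkG hκne
  have a1 : ∀ᵐ v : E d, kapE v0 v (fun j => it v0 j c) k ≠ 0 :=
    measure_eq_zero_iff_ae_notMem.1 hκnull
  have a2 : ∀ᵐ v : E d, Dw v0 v c ≠ 0 :=
    measure_eq_zero_iff_ae_notMem.1 (dw_null (by omega) (hden 0))
  have a3 := par_dirs hd hcop hdeg hR.pt m
  filter_upwards [a1, a2, a3] with v hv1 hv2 hv3
  obtain ⟨ρb, Rb, b, hρb, hRb, hb, huniq⟩ := hmbr v hv2 m hm1 dvd_rfl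
  have h0M : (0 : ℂ) ^ m = 0 := zero_pow (by omega)
  have hrad : Tendsto rad atTop (𝓝 0) := by
    have h1 : Tendsto (fun j : ℕ => (3 / 4 : ℝ) * (1 / 2) ^ j) atTop (𝓝 (3 / 4 * 0)) :=
      (tendsto_pow_atTop_nhds_zero_of_lt_one (by norm_num) (by norm_num)).const_mul _
    rw [mul_zero] at h1
    exact h1
  have hrad0 : ∀ j, 0 < rad j := by
    intro j
    unfold rad
    positivity
  have hrad2 : Tendsto rad atTop (𝓝[>] 0) :=
    tendsto_nhdsWithin_iff.2 ⟨hrad, Filter.Eventually.of_forall fun j => hrad0 j⟩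
  have hZ : ∀ i : Fin m, Tendsto (fun j : ℕ => volume (ball (0 : ℂ) 1 ∩
      {η : ℂ | ¬ Att (Rf (v0 + ((rad j : ℂ) * η) ^ m • v))
        ((b i ((rad j : ℂ) * η) : ℂ) : OnePoint ℂ)})) atTop (𝓝 0) := by
    intro i
    rw [hk] at hv1
    rw [ENNReal.tendsto_nhds_zero]
    intro ε hε
    have hε2 : 0 < ε / 2 := ENNReal.div_pos hε.ne' (by simp)
    obtain ⟨K, hKc, -, hKd, hKm⟩ := hv3 (ε / 2) hε2
    obtain ⟨Y, -, hYK, hYP⟩ := mk_fam h hR hJ hcC hm1 hρb (hb i).1 (hb i).2.1 (hb i).2.2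
      hmfl hv1 hKc hKd
    have h1 := (Y.lim hnull).comp hrad2
    rw [ENNReal.tendsto_nhds_zero] at h1
    filter_upwards [h1 (ε / 2) hε2] with j hj
    have hsub : ball (0 : ℂ) 1 ∩ {η : ℂ | ¬ Att (Rf (v0 + ((rad j : ℂ) * η) ^ m • v))
        ((b i ((rad j : ℂ) * η) : ℂ) : OnePoint ℂ)} ⊆
        (ball (0 : ℂ) 1 ∩ {η : ℂ | η / (‖η‖ : ℂ) ∈ Y.Kd ∧ ¬ Y.P ((rad j : ℂ) * η)}) ∪
        (ball (0 : ℂ) 1 ∩ {u : ℂ | u / (‖u‖ : ℂ) ∉ K}) := by
      rintro η ⟨hη, hη2⟩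
      by_cases hdir : η / (‖η‖ : ℂ) ∈ K
      · left
        refine ⟨hη, ?_, ?_⟩
        · rw [hYK]
          exact hdir
        · rw [hYP]
          exact hη2
      · exact Or.inr ⟨hη, hdir⟩
    calc volume (ball (0 : ℂ) 1 ∩ {η : ℂ | ¬ Att (Rf (v0 + ((rad j : ℂ) * η) ^ m • v))
        ((b i ((rad j : ℂ) * η) : ℂ) : OnePoint ℂ)}) ≤ _ := measure_mono hsub
      _ ≤ _ := measure_union_le _ _
      _ ≤ ε / 2 + ε / 2 := add_le_add hj hKm
      _ = ε := ENNReal.add_halves ε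
  have hsum : Tendsto (fun j : ℕ => ∑ i : Fin m, volume (ball (0 : ℂ) 1 ∩
      {η : ℂ | ¬ Att (Rf (v0 + ((rad j : ℂ) * η) ^ m • v))
        ((b i ((rad j : ℂ) * η) : ℂ) : OnePoint ℂ)})) atTop (𝓝 0) := by
    have h1 := tendsto_finsetSum Finset.univ fun i _ => hZ i
    rwa [Finset.sum_const_zero] at h1
  -- zeros of `wv` stay near `c`
  have hcomp : IsCompact (closedBall c δ \ ball c Rb) := (isCompact_closedBall c δ).diff isOpen_ball
  have hloc : ∀ z ∈ closedBall c δ \ ball c Rb, ∀ᶠ y : E d × ℂ in 𝓝 v0 ×ˢ 𝓝 z,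
      wv y.1 y.2 ≠ 0 := by
    intro z hz
    have hz0 : wv v0 z ≠ 0 := by
      intro h
      apply hz.2
      rw [hone z hz.1 h]
      exact mem_ball_self hRb
    rw [← nhds_prod_eq]
    have h1 := (wv_cont (d := d)).tendsto (v0, z)
    exact h1.eventually_ne hz0
  have hall := ev_compact (p := fun (w : E d) z => wv w z ≠ 0) hcomp hloc
  have hcont : Tendsto (fun s : ℂ => v0 + s ^ m • v) (𝓝 0) (𝓝 v0) := by
    have h1 : Continuous (fun s : ℂ => v0 + s ^ m • v) := by fun_prop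
    have h2 := h1.tendsto 0
    rwa [h0M, zero_smul, add_zero] at h2
  obtain ⟨σ, hσ, hσb⟩ := Metric.eventually_nhds_iff_ball.1
    ((hcont.eventually hall).and (ball_mem_nhds (0 : ℂ) hρb))
  refine tendsto_of_tendsto_of_tendsto_of_le_of_le' tendsto_const_nhds hsum
    (Filter.Eventually.of_forall fun j => zero_le) ?_
  filter_upwards [hrad.eventually (gt_mem_nhds hσ)] with j hj
  have hrj0 : 0 ≤ rad j := (hrad0 j).le
  have hsub : ball (0 : ℂ) 1 ∩ {η : ℂ | ¬ AC c δ (v0 + ((rad j : ℂ) * η) ^ m • v)} ⊆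
      ⋃ i : Fin m, ball (0 : ℂ) 1 ∩
      {η : ℂ | ¬ Att (Rf (v0 + ((rad j : ℂ) * η) ^ m • v))
        ((b i ((rad j : ℂ) * η) : ℂ) : OnePoint ℂ)} := by
    rintro η ⟨hη, hη2⟩
    have hs : (rad j : ℂ) * η ∈ ball (0 : ℂ) σ := by
      rw [mem_ball_zero_iff, norm_mul, Complex.norm_real, Real.norm_of_nonneg hrj0]
      have h1 : ‖η‖ ≤ 1 := (mem_ball_zero_iff.1 hη).le
      calc rad j * ‖η‖ ≤ rad j * 1 := mul_le_mul_of_nonneg_left h1 hrj0
        _ < σ := by rw [mul_one]; exact hj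
    obtain ⟨hs1, hs2⟩ := hσb _ hs
    by_contra hcon3
    rw [mem_iUnion] at hcon3
    push Not at hcon3
    apply hη2
    intro z hz hwz
    have hzb : z ∈ ball c Rb := by
      by_contra hcon4
      exact hs1 z ⟨hz, hcon4⟩ hwz
    obtain ⟨i, hzi⟩ := huniq _ hs2 z hzb hwz
    rw [hzi]
    by_contra hcon5
    exact hcon3 i ⟨hη, hcon5⟩
  exact (measure_mono hsub).trans (measure_iUnion_fintype_le _ _)

theorem p_good (d : ℕ) : PGood d := by
  intro v0 h h0 c hw hcJ hcn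
  have hd := h.hd
  obtain ⟨δ, hδ, hone⟩ := cegood_iso (Pool.Agent.H91.CE.wv_ne hd h0.1 h0.2.1) c
  obtain ⟨M, hM, hline⟩ := d_line_p h h0 hw hcJ hcn hδ hone
  have h1 := Pool.Agent.H44.DN.ddy hM
    (Pool.Agent.H44.DN.dfub (X := AC c δ) (ac_open hd h0.1 h0.2.1 c δ) hM hline)
  rw [ENNReal.tendsto_nhds_zero] at h1
  intro ε hε
  refine ⟨δ, hδ, ?_⟩
  filter_upwards [h1 ε hε] with r hr
  refine le_trans (measure_mono ?_) hr
  rintro v ⟨hv1, hv2⟩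
  exact ⟨hv1, fun hAC => hv2 fun z hz hwz => hAC z (ball_subset_closedBall hz) hwz⟩

/-- the theorem on rational maps, in coordinates -/
theorem p_full {d : ℕ} (hd : 2 ≤ d) {v0 : E d}
    (hcop : IsCoprime (pol v0.1) (pol v0.2))
    (hdeg : max (pol v0.1).natDegree (pol v0.2).natDegree = d)
    (h : ∀ c, IsCrit (Rf v0) c → (∃ z n, Ty12 (Rf v0) c z n ∨ Ty4 (Rf v0) c z n) ∨
      ∃ m : ℕ, CEAt (Rf v0) ((Rf v0)^[m] c))
    (hex : ∃ z n, NRCycle (Rf v0) z n) :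
    Tendsto (fun r : ℝ => Pool.Agent.H44.LD.prop v0 HypDeg r) (𝓝[>] 0) (𝓝 0) :=
  p_main hd (p_good d) hcop hdeg h hex

end Pool.Agent.H79.PJ
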