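import Pool.Agent.H79.PQ.Fcp
import Pool.Agent.H79.PQ.Joint
import Pool.Agent.H44.DN.FCA

/-!
# Orbits of the perturbed maps which leave the Julia set are attracted, in the good directions
-/

set_option autoImplicit false

open Filter Topology Polynomial Metric Set

namespace Pool.Agent.H79.PJ

open Pool.Agent.H44.Fatou Pool.Agent.H32.BT Pool.Agent.H79.Eul Pool.Agent.H79.Par Pool.Agent.H79.PB
open Pool.Agent.H35.RL Pool.Agent.H35.EX Pool.Agent.H91.CE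
open Pool.Agent.H44.DP (Ps dS)

/-- from the orbit back to the critical point -/
theorem fam_back {d : ℕ} (hd : 2 ≤ d) {v0 : E d} (hcop : IsCoprime (pol v0.1) (pol v0.2))
    (hdeg : max (pol v0.1).natDegree (pol v0.2).natDegree = d) {N : ℕ} {D : Ps}
    (hR : RepPs v0 N D) {v : E d} {M k : ℕ} (hM : 1 ≤ M) {c : ℂ}
    (hden : ∀ i < k, ev v0.2 (it v0 i c) ≠ 0) {b : ℂ → ℂ} {ρ : ℝ}
    (hρ : 0 < ρ) (hb : DifferentiableOn ℂ b (ball 0 ρ)) (hb0 : b 0 = c) :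
    ∃ ε : ℝ, 0 < ε ∧ ∀ u ∈ ball (0 : ℂ) ε, ∀ n : ℕ,
      (∀ i < n, it (v0 + u ^ M • v) (N * i) (it (v0 + u ^ M • v) k (b u)) ∈ thickening D.δ D.J) →
      Att (Rf (v0 + u ^ M • v))
        ((it (v0 + u ^ M • v) (N * n) (it (v0 + u ^ M • v) k (b u)) : ℂ) : OnePoint ℂ) →
        Att (Rf (v0 + u ^ M • v)) ((b u : ℂ) : OnePoint ℂ) := by
  have hN := hR.hN
  have hw0 : Tendsto (fun u : ℂ => v0 + u ^ M • v) (𝓝 0) (𝓝 v0) := by
    have h1 : Continuous (fun u : ℂ => v0 + u ^ M • v) := by fun_prop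
    have h2 := h1.tendsto 0
    have h3 : v0 + (0 : ℂ) ^ M • v = v0 := by
      rw [zero_pow (by omega), zero_smul, add_zero]
    rw [h3] at h2
    exact h2
  have hA := hw0.eventually (cop_near hcop hdeg (by omega))
  have hbd : ∀ᶠ s in 𝓝 (0 : ℂ), DifferentiableAt ℂ b s := by
    filter_upwards [isOpen_ball.mem_nhds (mem_ball_self hρ)] with s hs
    exact (hb s hs).differentiableAt (isOpen_ball.mem_nhds hs)
  have hB := diff_n (v0 := v0) (v := v) hM (w := b) k (by rw [hb0]; exact hden) hbd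
  obtain ⟨A, τ, -, hτ, hpert⟩ := fc_pert hR v
  have hC : ∀ᶠ u in 𝓝 (0 : ℂ), ‖u ^ M‖ ≤ τ := by
    have h1 : Continuous (fun u : ℂ => ‖u ^ M‖) := by fun_prop
    have h2 := h1.tendsto 0
    have h3 : ‖(0 : ℂ) ^ M‖ = 0 := by rw [zero_pow (by omega), norm_zero]
    rw [h3] at h2
    filter_upwards [h2.eventually (gt_mem_nhds hτ)] with u hu
    exact hu.le
  obtain ⟨ε2, hε2, hev⟩ := Metric.eventually_nhds_iff_ball.mp (hA.and (hB.and hC))
  refine ⟨ε2, hε2, fun u hu n hn1 hn2 => ?_⟩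
  obtain ⟨⟨hcw, -⟩, ⟨-, hBu⟩, hCu⟩ := hev u hu
  set w := v0 + u ^ M • v with hw
  have hden2 : ∀ i < N * n + k, ev w.2 (it w i (b u)) ≠ 0 := by
    intro i hi
    rcases Nat.lt_or_ge i k with h | h
    · exact hBu i h
    · obtain ⟨j, rfl⟩ : ∃ j, i = j + k := ⟨i - k, by omega⟩
      have hj : j < N * n := by omega
      have hq : j / N < n := by
        rw [Nat.div_lt_iff_lt_mul hN, Nat.mul_comm]
        exact hj
      have hr : j % N < N := Nat.mod_lt _ hN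
      have hjr : j + k = j % N + (N * (j / N) + k) := by
        have := Nat.mod_add_div j N
        omega
      rw [hjr, it_add, it_add]
      exact (hpert (u ^ M) hCu _ (hn1 (j / N) hq)).1 _ hr
  have h1 := Pool.Agent.H44.DN.fca_iter w (b u) (N * n + k) hden2
  have hcont : Continuous (Rf w) := rat_continuous hcw
  have h2 := (Pool.Agent.H44.DN.att_iter (f := Rf w) hcont (N * n + k) (b u : OnePoint ℂ)).mp
  rw [h1, it_add] at h2
  exact h2 hn2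

/-- the direction of `u ^ M` -/
theorem pow_dir {K : Set ℂ} {M : ℕ} {u : ℂ} (h : u / (‖u‖ : ℂ) ∈ K) :
    u ^ M / (‖u ^ M‖ : ℂ) ∈ (fun e : ℂ => e ^ M) '' K := by
  refine ⟨u / (‖u‖ : ℂ), h, ?_⟩
  simp only [div_pow, norm_pow, Complex.ofReal_pow]

theorem pow_small {M : ℕ} (hM : 1 ≤ M) {η : ℝ} (_hη : 0 < η) {u : ℂ} (hu : ‖u‖ < min η 1) :
    ‖u ^ M‖ < η := by
  rw [norm_pow]
  have h1 : ‖u‖ < η := hu.trans_le (min_le_left _ _)
  have h2 : ‖u‖ < 1 := hu.trans_le (min_le_right _ _)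
  exact (pow_le_of_le_one (norm_nonneg _) h2.le (by omega)).trans_lt h1

theorem fc_att {d : ℕ} {v0 : E d} (h : Hyp v0) {N : ℕ} {D : Ps} (hR : RepPs v0 N D)
    (hJ : D.J = JP v0) {v : E d} {M k : ℕ} (hM : 1 ≤ M) {c : ℂ}
    (hden : ∀ i < k, ev v0.2 (it v0 i c) ≠ 0) {b : ℂ → ℂ} {ρ : ℝ}
    (hρ : 0 < ρ) (hb : DifferentiableOn ℂ b (ball 0 ρ)) (hb0 : b 0 = c) {K : Set ℂ}
    (hK : IsCompact K) (hKd : ∀ e ∈ K, RobDir v0 (e ^ M • v)) {z : ℂ} (hz : z ∉ D.J) :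
    ∃ ε : ℝ, 0 < ε ∧ ∀ u ∈ ball (0 : ℂ) ε, u ≠ 0 → u / (‖u‖ : ℂ) ∈ K → ∀ n : ℕ,
      (∀ i < n, it (v0 + u ^ M • v) (N * i) (it (v0 + u ^ M • v) k (b u)) ∈ thickening D.δ D.J) →
      it (v0 + u ^ M • v) (N * n) (it (v0 + u ^ M • v) k (b u)) ∈ ball z ε →
        Att (Rf (v0 + u ^ M • v)) ((b u : ℂ) : OnePoint ℂ) := by
  have hd := h.hd
  obtain ⟨ε1, hε1, hback⟩ := fam_back hd h.hcop h.hdeg hR (v := v) hM hden hρ hb hb0
  have hzA : (z : OnePoint ℂ) ∈ Fa v0 := by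
    rw [hJ] at hz
    by_contra hcon
    exact hz hcon
  have hK' : IsCompact ((fun e : ℂ => e ^ M) '' K) := hK.image (continuous_pow M)
  obtain ⟨η, hη, hev⟩ := rob_any (by omega) h.hcop h.hdeg h.hper hK' (by
    rintro _ ⟨e, he, rfl⟩
    exact hKd e he) hzA
  rw [OnePoint.nhds_coe_eq, eventually_map] at hev
  obtain ⟨ε2, hε2, hev2⟩ := Metric.eventually_nhds_iff_ball.1 hev
  refine ⟨min ε1 (min ε2 (min η 1)), by positivity, fun u hu hu0 hdir n hn1 hn2 => ?_⟩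
  have hu' : ‖u‖ < min ε1 (min ε2 (min η 1)) := mem_ball_zero_iff.1 hu
  have hu1 : u ∈ ball (0 : ℂ) ε1 := ball_subset_ball (min_le_left _ _) hu
  have hu3 : ‖u‖ < min η 1 := hu'.trans_le ((min_le_right _ _).trans (min_le_right _ _))
  have h5 : it (v0 + u ^ M • v) (N * n) (it (v0 + u ^ M • v) k (b u)) ∈ ball z ε2 :=
    ball_subset_ball ((min_le_right _ _).trans (min_le_left _ _)) hn2
  refine hback u hu1 n hn1 (hev2 _ h5 (u ^ M) ?_ (pow_small hM hη hu3) (pow_dir hdir))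
  rw [norm_pow]
  exact pow_pos (norm_pos_iff.2 hu0) _

theorem fc_atp {d : ℕ} {v0 : E d} (h : Hyp v0) {N : ℕ} {D : Ps} (hR : RepPs v0 N D)
    {v : E d} {M k : ℕ} (hM : 1 ≤ M) {c : ℂ}
    (hden : ∀ i < k, ev v0.2 (it v0 i c) ≠ 0) {b : ℂ → ℂ} {ρ : ℝ}
    (hρ : 0 < ρ) (hb : DifferentiableOn ℂ b (ball 0 ρ)) (hb0 : b 0 = c) {K : Set ℂ}
    (hK : IsCompact K) {p : ℂ}
    (hKd : ∀ e ∈ K, SectDir v0 p (D.ap p) (D.qp p) (e ^ M • v)) {ε : ℝ} (hε : 0 < ε) :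
    ∃ r K0 : ℝ, 0 < r ∧ 0 < K0 ∧ ∀ u ∈ ball (0 : ℂ) r, u ≠ 0 → u / (‖u‖ : ℂ) ∈ K → ∀ n : ℕ,
      (∀ i < n, it (v0 + u ^ M • v) (N * i) (it (v0 + u ^ M • v) k (b u)) ∈ thickening D.δ D.J) →
      K0 * (‖u‖ ^ M) ^ (((D.qp p + 1 : ℕ) : ℝ)⁻¹) ≤
        ‖it (v0 + u ^ M • v) (N * n) (it (v0 + u ^ M • v) k (b u)) - p‖ →
      ‖it (v0 + u ^ M • v) (N * n) (it (v0 + u ^ M • v) k (b u)) - p‖ ≤ r →
      (D.ap p * (it (v0 + u ^ M • v) (N * n) (it (v0 + u ^ M • v) k (b u)) - p) ^ D.qp p).re ≤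
        (1 - ε) * ‖D.ap p *
          (it (v0 + u ^ M • v) (N * n) (it (v0 + u ^ M • v) k (b u)) - p) ^ D.qp p‖ →
        Att (Rf (v0 + u ^ M • v)) ((b u : ℂ) : OnePoint ℂ) := by
  have hd := h.hd
  obtain ⟨ε1, hε1, hback⟩ := fam_back hd h.hcop h.hdeg hR (v := v) hM hden hρ hb hb0
  have hK' : IsCompact ((fun e : ℂ => e ^ M) '' K) := hK.image (continuous_pow M)
  obtain ⟨r0, K0, η, hr0, hK0, hη, hsec⟩ := sect_cpt hK' (by
    rintro _ ⟨e, he, rfl⟩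
    exact hKd e he) hε
  refine ⟨min ε1 (min r0 (min η 1)), K0, by positivity, hK0,
    fun u hu hu0 hdir n hn1 hn2 hn3 hn4 => ?_⟩
  have hu' : ‖u‖ < min ε1 (min r0 (min η 1)) := mem_ball_zero_iff.1 hu
  have hu1 : u ∈ ball (0 : ℂ) ε1 := ball_subset_ball (min_le_left _ _) hu
  have hu3 : ‖u‖ < min η 1 := hu'.trans_le ((min_le_right _ _).trans (min_le_right _ _))
  have h5 := hsec (u ^ M) (by rw [norm_pow]; exact pow_pos (norm_pos_iff.2 hu0) _)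
    (pow_small hM hη hu3) (pow_dir hdir)
    (it (v0 + u ^ M • v) (N * n) (it (v0 + u ^ M • v) k (b u)) - p)
    (by rw [norm_pow]; exact hn2) (hn3.trans ((min_le_right _ _).trans (min_le_left _ _))) hn4
  rw [add_sub_cancel] at h5
  exact hback u hu1 n hn1 h5

end Pool.Agent.H79.PJ
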