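import Pool.Agent.H44.DP.CONV

/-!
# Families of perturbed critical orbits

`PFam D`: the fields of a family of perturbations with good directions `Kd`; `PFam.lim`: the parameters with a good
direction which are not good have density `0` at `0` (chapter PAR).
-/

set_option autoImplicit false

open Filter Topology Metric Set

namespace Pool.Agent.H79.PJ

open Pool.Agent.H44.DP (Ps)

/-- a family of perturbations of `f` with a perturbed orbit of the terminal value of `c` -/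
structure PFam (D : Ps) where
  c : ℂ
  M : ℕ
  F : ℂ → ℂ → ℂ
  g : ℕ → ℂ → ℂ
  T : ℂ
  Tn : ℕ → ℂ
  A : ℝ
  ρ0 : ℝ
  P : ℂ → Prop
  Kd : Set ℂ
  hc : c ∈ D.Ce
  hM : 1 ≤ M
  hT : T ≠ 0
  hA : 1 ≤ A
  hρ0 : 0 < ρ0
  hρ1 : ρ0 ≤ 1
  g0 : DifferentiableOn ℂ (g 0) (ball 0 ρ0)
  lip0 : ∀ u ∈ ball (0 : ℂ) ρ0, ‖g 0 u - D.vv c‖ ≤ A * ‖u‖
  step : ∀ (n : ℕ) (u : ℂ), g (n + 1) u = F u (g n u)
  pert : ∀ u ∈ ball (0 : ℂ) ρ0, ∀ z ∈ thickening D.δ D.J, ‖F u z - D.f z‖ ≤ A * ‖u‖ ^ M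
  hol : ∀ (n : ℕ) (U : Set ℂ), IsOpen U → U ⊆ ball 0 ρ0 → DifferentiableOn ℂ (g n) U →
    (∀ u ∈ U, g n u ∈ thickening D.δ D.J) → DifferentiableOn ℂ (g (n + 1)) U
  jet : ∀ n : ℕ, (fun u : ℂ => g n u - g n 0 - deriv (D.f^[n]) (D.vv c) * Tn n * u ^ M)
    =o[𝓝 0] fun u : ℂ => u ^ M
  hTn : ∀ n : ℕ, ‖Tn n - T‖ ≤ A * (1 / D.q) ^ n
  /-- in the good directions the points near an attracted point are attracted -/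
  att : ∀ z : ℂ, z ∉ D.J → ∃ ε : ℝ, 0 < ε ∧ ∀ u ∈ ball (0 : ℂ) ε, u ≠ 0 → u / (‖u‖ : ℂ) ∈ Kd →
    ∀ n : ℕ, (∀ i < n, g i u ∈ thickening D.δ D.J) → g n u ∈ ball z ε → P u
  /-- in the good directions the points near `p ∈ Pa` outside the cones are attracted, at all scales above
  `(‖u‖ ^ M) ^ (1 / (q + 1))` -/
  atp : ∀ p ∈ D.Pa, ∀ ε : ℝ, 0 < ε → ∃ r K0 : ℝ, 0 < r ∧ 0 < K0 ∧
    ∀ u ∈ ball (0 : ℂ) r, u ≠ 0 → u / (‖u‖ : ℂ) ∈ Kd →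
    ∀ n : ℕ, (∀ i < n, g i u ∈ thickening D.δ D.J) →
      K0 * (‖u‖ ^ M) ^ (((D.qp p + 1 : ℕ) : ℝ)⁻¹) ≤ ‖g n u - p‖ → ‖g n u - p‖ ≤ r →
        (D.ap p * (g n u - p) ^ D.qp p).re ≤ (1 - ε) * ‖D.ap p * (g n u - p) ^ D.qp p‖ → P u

open MeasureTheory in
theorem PFam.lim {D : Ps} (X : PFam D) (hnull : volume D.J = 0) :
    Tendsto (fun ρ : ℝ => volume (ball (0 : ℂ) 1 ∩
        {η : ℂ | η / (‖η‖ : ℂ) ∈ X.Kd ∧ ¬ X.P ((ρ : ℂ) * η)})) (𝓝[>] 0) (𝓝 0) :=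
  Pool.Agent.H44.DP.conv_main D hnull X.hc X.hM X.hT X.hA X.hρ0 X.hρ1 X.g0 X.lip0 X.step X.pert
    X.hol X.jet X.hTn X.att X.atp

end Pool.Agent.H79.PJ
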