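import Pool.Agent.H79.PQ.Fca
import Pool.Agent.H79.PQ.PFam
import Pool.Agent.H44.LD.CERUN
import Pool.Agent.H91.CE.RUNP

/-!
# The family of a critical branch

`mk_fam`: the family `PFam D` of the perturbations `v0 + u ^ M • v`, for an iterate `it v0 N`.
-/

set_option autoImplicit false

open Filter Topology Polynomial Metric Set

namespace Pool.Agent.H79.PJ

open Pool.Agent.H44.Fatou Pool.Agent.H32.BT Pool.Agent.H79.Eul Pool.Agent.H79.Par Pool.Agent.H79.PB
open Pool.Agent.H35.RL Pool.Agent.H35.EX Pool.Agent.H91.CE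
open Pool.Agent.H44.DP (Ps dS)

/-- the tail of a series dominated by a geometric series -/
private theorem fcm_tail {a : ℕ → ℂ} {B q : ℝ} (hq : 1 < q)
    (h : ∀ i, ‖a i‖ ≤ B * (1 / q) ^ i) (n : ℕ) :
    ‖∑ i ∈ Finset.range n, a i - ∑' i, a i‖ ≤ (B * (1 - 1 / q)⁻¹) * (1 / q) ^ n := by
  have hq0 : 0 < q := by linarith
  have hq1 : 1 / q < 1 := by
    rw [div_lt_one hq0]
    exact hq
  have hq2 : 0 ≤ 1 / q := by positivity
  have hgs : HasSum (fun i : ℕ => (1 / q) ^ i) (1 - 1 / q)⁻¹ := hasSum_geometric_of_lt_one hq2 hq1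
  have hsum : Summable a := by
    refine Summable.of_norm_bounded (hgs.summable.mul_left B) h
  have h1 := hsum.sum_add_tsum_nat_add n
  have h2 : ∑ i ∈ Finset.range n, a i - ∑' i, a i = -∑' i, a (i + n) := by
    rw [← h1]
    ring
  rw [h2, norm_neg]
  have h3 : HasSum (fun i : ℕ => (B * (1 / q) ^ n) * (1 / q) ^ i)
      ((B * (1 / q) ^ n) * (1 - 1 / q)⁻¹) := hgs.mul_left _
  have h4 := tsum_of_norm_bounded (f := fun i => a (i + n)) h3 (fun i => by
    refine (h (i + n)).trans (le_of_eq ?_)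
    rw [pow_add]
    ring)
  refine h4.trans (le_of_eq ?_)
  ring

theorem itm_succ {d : ℕ} (w : E d) (N n : ℕ) (y : ℂ) :
    it w (N * (n + 1)) y = it w N (it w (N * n) y) := by
  have h : N * (n + 1) = N + N * n := by ring
  rw [h, Pool.Agent.H79.Par.it_add]

theorem jp_orb {d : ℕ} {v0 : E d} (h : Hyp v0) {x : ℂ} (hx : x ∈ JP v0) (j : ℕ) :
    it v0 j x ∈ JP v0 ∧ ev v0.2 (it v0 j x) ≠ 0 :=
  ⟨h.jp_map j hx, h.jp_gn (j + 1) hx j (Nat.lt_succ_self j)⟩

theorem trD_cont {d : ℕ} {v0 : E d} (h : Hyp v0) (j : ℕ) :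
    ContinuousOn (fun z => trD v0 j z) (JP v0) := by
  have c1 : ∀ i : ℕ, ContinuousOn (fun z => it v0 i z) (JP v0) := fun i z hz =>
    (gn_deriv (h.jp_gn i hz)).continuousAt.continuousWithinAt
  have c2 : Continuous (fun y : ℂ => wv v0 y) := (wv_cont (d := d)).comp
    (continuous_const.prodMk continuous_id)
  have c3 : ∀ i : ℕ, ContinuousOn (fun z => wv v0 (it v0 i z)) (JP v0) := fun i =>
    c2.comp_continuousOn (c1 i)
  have c4 : ∀ i : ℕ, ContinuousOn (fun z => ev v0.2 (it v0 i z)) (JP v0) := fun i =>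
    (ev_cont v0.2).comp_continuousOn (c1 i)
  have c5 : ∀ i ∈ Finset.range j, ContinuousOn
      (fun z => wv v0 (it v0 i z) / ev v0.2 (it v0 i z) ^ 2) (JP v0) := by
    intro i _
    exact (c3 i).div ((c4 i).pow 2) fun z hz => pow_ne_zero 2 (jp_orb h hz i).2
  have c6 := continuousOn_finsetProd (Finset.range j) c5
  have c7 : (fun z => trD v0 j z) = fun z =>
      ∏ i ∈ Finset.range j, wv v0 (it v0 i z) / ev v0.2 (it v0 i z) ^ 2 := by
    funext z
    unfold trD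
    rfl
  rw [c7]
  exact c6

/-- the growth of the derivatives at all times -/
theorem rep_gr {d : ℕ} {v0 : E d} (h : Hyp v0) {N : ℕ} {D : Ps} (hR : RepPs v0 N D) {c : ℂ}
    (hc : c ∈ D.Ce) :
    ∃ C q1 : ℝ, 0 < C ∧ 1 < q1 ∧ q1 ^ N = D.q ∧
      ∀ n : ℕ, q1 ^ n ≤ C * ‖trD v0 n (it v0 (N * D.τ c) c)‖ := by
  have hN := hR.hN
  have hq := D.hq
  have hC := D.hC
  have hcS : c ∈ D.S := (D.hS c).2 (Or.inl ((D.hCr c).2 (Or.inl hc)))
  have hcJ : c ∈ JP v0 := by
    have h1 := D.hSJ c hcS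
    rw [hR.J] at h1
    exact h.jf_sub h1
  have hxJ : it v0 (N * D.τ c) c ∈ JP v0 := (jp_orb h hcJ _).1
  obtain ⟨x, hx⟩ : ∃ x, x = it v0 (N * D.τ c) c := ⟨_, rfl⟩
  rw [← hx] at hxJ ⊢
  obtain ⟨q1, hq1, hq1N⟩ : ∃ q1 : ℝ, 1 < q1 ∧ q1 ^ N = D.q := by
    refine ⟨D.q ^ (1 / (N : ℝ)), Real.one_lt_rpow hq (by positivity), ?_⟩
    rw [← Real.rpow_natCast, ← Real.rpow_mul (by linarith), one_div_mul_cancel (by positivity),
      Real.rpow_one]
  -- a bound for short orbits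
  obtain ⟨L, hL1, hL⟩ : ∃ L : ℝ, 1 ≤ L ∧ ∀ j ≤ N, ∀ z ∈ JP v0, ‖trD v0 j z‖ ≤ L := by
    have h2 : ∀ j : ℕ, ∃ B : ℝ, ∀ z ∈ JP v0, ‖trD v0 j z‖ ≤ B := fun j =>
      h.jp_cpt.exists_bound_of_continuousOn (trD_cont h j)
    choose B hB using h2
    refine ⟨1 + ∑ j ∈ Finset.range (N + 1), |B j|, ?_, ?_⟩
    · have : 0 ≤ ∑ j ∈ Finset.range (N + 1), |B j| := Finset.sum_nonneg fun j _ => abs_nonneg _
      linarith
    · intro j hj z hz
      have h3 : |B j| ≤ ∑ j ∈ Finset.range (N + 1), |B j| :=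
        Finset.single_le_sum (f := fun j => |B j|) (fun i _ => abs_nonneg _)
          (Finset.mem_range.2 (by omega))
      linarith [hB j z hz, le_abs_self (B j)]
  -- growth at the multiples of `N`
  have hmul : ∀ a : ℕ, D.q ^ a ≤ D.C * ‖trD v0 (N * a) x‖ := by
    intro a
    have h1 := D.ce1 c hc a
    have h2 : D.f^[D.τ c] c = x := by rw [hR.f, itN_iter, hx]
    rw [h2] at h1
    have h3 : deriv (D.f^[a]) x = trD v0 (N * a) x := by
      have h4 : D.f^[a] = fun z => it v0 (N * a) z := by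
        funext z
        rw [hR.f, itN_iter]
      rw [h4]
      exact (gn_deriv (h.jp_gn (N * a) hxJ)).deriv
    rwa [h3] at h1
  refine ⟨D.C * L, q1, by positivity, hq1, hq1N, fun n => ?_⟩
  have hr : n % N < N := Nat.mod_lt _ hN
  have h1 := hmul (n / N + 1)
  have h3 : N * (n / N + 1) = N * (n / N) + N := by ring
  have h33 := Nat.mod_add_div n N
  have h2 : N * (n / N + 1) = n + (N - n % N) := by omega
  have h4 : trD v0 (N * (n / N + 1)) x = trD v0 (N - n % N) (it v0 n x) * trD v0 n x := by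
    rw [h2]
    exact trD_add v0 (N - n % N) n x
  have h8 : ‖trD v0 (N - n % N) (it v0 n x)‖ ≤ L := hL _ (by omega) _ (jp_orb h hxJ n).1
  have h9 : q1 ^ n ≤ D.q ^ (n / N + 1) := by
    rw [← hq1N, ← pow_mul]
    exact pow_le_pow_right₀ hq1.le (by omega)
  calc q1 ^ n ≤ D.q ^ (n / N + 1) := h9
    _ ≤ D.C * ‖trD v0 (N * (n / N + 1)) x‖ := h1
    _ = D.C * (‖trD v0 (N - n % N) (it v0 n x)‖ * ‖trD v0 n x‖) := by rw [h4, norm_mul]
    _ ≤ D.C * (L * ‖trD v0 n x‖) := by gcongr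
    _ = D.C * L * ‖trD v0 n x‖ := by ring

theorem mk_fam {d : ℕ} {v0 : E d} (h : Hyp v0) {N : ℕ} {D : Ps} (hR : RepPs v0 N D)
    (hJ : D.J = JP v0) {c : ℂ} (hc : c ∈ D.Ce) {v : E d} {m M : ℕ} (hM : 1 ≤ M) {b : ℂ → ℂ}
    {ρ : ℝ} (hρ : 0 < ρ)
    (hb : DifferentiableOn ℂ b (ball 0 ρ)) (hb0 : b 0 = c)
    (hbC : ∃ C : ℝ, ∀ s ∈ ball (0 : ℂ) ρ, ‖b s - c‖ ^ (m + 1) ≤ C * ‖s‖ ^ (M + 1))
    (hfl : ∃ C' : ℝ, ∀ᶠ z in 𝓝 c, ‖wv v0 z‖ ≤ C' * ‖z - c‖ ^ m)
    (hκ : kapE v0 v (fun j => it v0 j c) (N * D.τ c) ≠ 0) {K : Set ℂ} (hK : IsCompact K)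
    (hKd : ∀ e ∈ K, RobDir v0 (e ^ M • v) ∧
      ∀ p ∈ D.Pa, SectDir v0 p (D.ap p) (D.qp p) (e ^ M • v)) :
    ∃ X : PFam D, X.M = M ∧ X.Kd = K ∧
      ∀ u : ℂ, X.P u ↔ Att (Rf (v0 + u ^ M • v)) ((b u : ℂ) : OnePoint ℂ) := by
  classical
  have hδ := D.hδ
  have hC := D.hC
  have hq := D.hq
  have hq0 : 0 < D.q := by linarith
  have hC0 : 0 < D.C := by linarith
  have hN := hR.hN
  have hcS : c ∈ D.S := (D.hS c).2 (Or.inl ((D.hCr c).2 (Or.inl hc)))
  have hcJ : c ∈ JP v0 := by rw [← hJ]; exact D.hSJ c hcS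
  have hfn : ∀ n : ℕ, D.f^[n] = fun z => it v0 (N * n) z := by
    intro n
    funext z
    rw [hR.f, itN_iter]
  obtain ⟨k, hk⟩ : ∃ k, k = N * D.τ c := ⟨_, rfl⟩
  have hk1 : 1 ≤ k := by
    rw [hk]
    exact Nat.mul_pos hN (D.hτ c ((D.hCr c).2 (Or.inl hc)))
  obtain ⟨x, hx⟩ : ∃ x, x = it v0 k c := ⟨_, rfl⟩
  have hxv : D.vv c = x := by
    unfold Pool.Agent.H44.DP.Ps.vv
    rw [hfn, hx, hk]
  have hden : ∀ j, ev v0.2 (it v0 j c) ≠ 0 := fun j => (jp_orb h hcJ j).2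
  have hxJ : x ∈ JP v0 := by rw [hx]; exact (jp_orb h hcJ k).1
  have hdenx : ∀ j, ev v0.2 (it v0 j x) ≠ 0 := fun j => (jp_orb h hxJ j).2
  have htr : ∀ n, deriv (D.f^[n]) x = trD v0 (N * n) x := by
    intro n
    rw [hfn]
    exact (gn_deriv (h.jp_gn (N * n) hxJ)).deriv
  obtain ⟨Cg, q1, hCg, hq1, hq1N, hgr⟩ := rep_gr h hR hc
  rw [← hk, ← hx] at hgr
  rw [← hk] at hκ
  have hq10 : 0 < q1 := by linarith
  have htrp : ∀ n, 0 < ‖trD v0 n x‖ := by
    intro n
    have h1 := hgr n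
    have h2 : 0 < q1 ^ n := by positivity
    by_contra hcon
    have h3 : ‖trD v0 n x‖ = 0 := le_antisymm (not_lt.mp hcon) (norm_nonneg _)
    rw [h3] at h1
    linarith
  have htrne : ∀ n, trD v0 n x ≠ 0 := fun n => norm_pos_iff.1 (htrp n)
  -- bound for xi
  have hcontxi : ContinuousOn (fun z => xi v0 v z) (JP v0) := by
    unfold xi
    refine ContinuousOn.div ?_ ?_ ?_
    · exact (((ev_cont v.1).mul (ev_cont v0.2)).sub
        ((ev_cont v0.1).mul (ev_cont v.2))).continuousOn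
    · exact ((ev_cont v0.2).pow 2).continuousOn
    · intro z hz
      exact pow_ne_zero 2 (jp_orb h hz 0).2
  obtain ⟨B, hB⟩ := h.jp_cpt.exists_bound_of_continuousOn hcontxi
  have hB0 : 0 ≤ B := (norm_nonneg _).trans (hB x hxJ)
  have hterm : ∀ i, ‖xi v0 v (it v0 i x) / trD v0 (i + 1) x‖ ≤ (B * Cg / q1) * (1 / q1) ^ i := by
    intro i
    rw [norm_div, div_le_iff₀ (htrp _)]
    have h1 := hB _ (jp_orb h hxJ i).1
    have h2 := hgr (i + 1)
    have h3 : (B * Cg / q1) * (1 / q1) ^ i * ‖trD v0 (i + 1) x‖ =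
        B * (1 / q1) ^ (i + 1) * (Cg * ‖trD v0 (i + 1) x‖) := by
      rw [pow_succ]
      ring
    rw [h3]
    calc ‖xi v0 v (it v0 i x)‖ ≤ B := h1
      _ = B * (1 / q1) ^ (i + 1) * q1 ^ (i + 1) := by
          rw [mul_assoc, ← mul_pow]
          have : 1 / q1 * q1 = 1 := by field_simp
          rw [this, one_pow, mul_one]
      _ ≤ B * (1 / q1) ^ (i + 1) * (Cg * ‖trD v0 (i + 1) x‖) :=
          mul_le_mul_of_nonneg_left h2 (by positivity)
  have hT : kapE v0 v (fun j => it v0 j c) k =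
      XX v0 v k c + ∑' i : ℕ, xi v0 v (it v0 i x) / trD v0 (i + 1) x := by
    unfold kapE
    have h0 : it v0 0 c = c := rfl
    beta_reduce
    rw [h0]
    congr 1
    refine tsum_congr fun i => ?_
    have h1 : it v0 (k + i) c = it v0 i x := by
      rw [hx, ← Pool.Agent.H79.Par.it_add, add_comm k i]
    rw [h1, hx]
  -- the start
  have hball : ball (0 : ℂ) ρ ∈ 𝓝 (0 : ℂ) := ball_mem_nhds _ hρ
  have hbd : ∀ᶠ s in 𝓝 (0 : ℂ), DifferentiableAt ℂ b s := by
    filter_upwards [isOpen_ball.mem_nhds (mem_ball_self hρ)] with s hs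
    exact hb.differentiableAt (isOpen_ball.mem_nhds hs)
  have h0M : (0 : ℂ) ^ M = 0 := zero_pow (by omega)
  have hs0 : (fun s => it (v0 + s ^ M • v) k (b s)) 0 = x := by
    simp only
    rw [h0M, zero_smul, add_zero, hb0, hx]
  have hdk := diff_n (v0 := v0) (v := v) hM (w := b) k (fun i _ => by rw [hb0]; exact hden i) hbd
  have hcs := crit_start (v := v) hM hk1 (fun i _ => hden i) (hbd.self_of_nhds.continuousAt) hb0
    (by
      obtain ⟨C, hC⟩ := hbC
      refine ⟨C, ?_⟩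
      filter_upwards [hball] with s hs
      exact hC s hs) hfl
  rw [← hx] at hcs
  have hdk0 : DifferentiableAt ℂ (fun s => it (v0 + s ^ M • v) k (b s)) 0 :=
    (hdk.self_of_nhds).1
  have hO : (fun s : ℂ => it (v0 + s ^ M • v) k (b s) - (fun s => it (v0 + s ^ M • v) k (b s)) 0)
      =O[𝓝 0] fun s : ℂ => s - 0 := hdk0.isBigO_sub
  rw [hs0] at hO
  obtain ⟨c1, hc1, hcb⟩ := hO.exists_pos
  rw [Asymptotics.isBigOWith_iff] at hcb
  obtain ⟨δ1, hδ1, hball1⟩ := Metric.eventually_nhds_iff_ball.1 (hdk.and hcb)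
  obtain ⟨A1, τ1, hA1, hτ1, hpert⟩ := fc_pert hR v
  obtain ⟨A, hA⟩ : ∃ A, A = max A1 (max c1 ((B * Cg / q1) * (1 - 1 / q1)⁻¹)) := ⟨_, rfl⟩
  have hAa : A1 ≤ A := by rw [hA]; exact le_max_left _ _
  have hAb : c1 ≤ A := by rw [hA]; exact (le_max_left _ _).trans (le_max_right _ _)
  have hAc : (B * Cg / q1) * (1 - 1 / q1)⁻¹ ≤ A := by
    rw [hA]; exact (le_max_right _ _).trans (le_max_right _ _)
  obtain ⟨ρ0, hρ0⟩ : ∃ ρ0, ρ0 = min 1 (min τ1 δ1) := ⟨_, rfl⟩
  have hρ0p : 0 < ρ0 := by rw [hρ0]; exact lt_min one_pos (lt_min hτ1 hδ1)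
  have hρ01 : ρ0 ≤ 1 := by rw [hρ0]; exact min_le_left _ _
  have hρ0τ : ρ0 ≤ τ1 := by rw [hρ0]; exact (min_le_right _ _).trans (min_le_left _ _)
  have hρ0δ : ρ0 ≤ δ1 := by rw [hρ0]; exact (min_le_right _ _).trans (min_le_right _ _)
  have hpowM : ∀ u ∈ ball (0 : ℂ) ρ0, ‖u ^ M‖ ≤ τ1 := by
    intro u hu
    rw [mem_ball_zero_iff] at hu
    have h5 : ‖u ^ M‖ ≤ ‖u‖ := by
      rw [norm_pow]
      exact pow_le_of_le_one (norm_nonneg _) (by linarith) (by omega)
    linarith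
  have hz0 : ∀ n, it (v0 + (0 : ℂ) ^ M • v) n (it (v0 + (0 : ℂ) ^ M • v) k (b 0)) = it v0 n x := by
    intro n
    rw [h0M, zero_smul, add_zero, hb0, hx]
  refine ⟨{ c := c
            M := M
            F := fun u z => it (v0 + u ^ M • v) N z
            g := fun n u => it (v0 + u ^ M • v) (N * n) (it (v0 + u ^ M • v) k (b u))
            T := kapE v0 v (fun j => it v0 j c) k
            Tn := fun n => XX v0 v k c +
              ∑ i ∈ Finset.range (N * n), xi v0 v (it v0 i x) / trD v0 (i + 1) x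
            A := A
            ρ0 := ρ0
            P := fun u => Att (Rf (v0 + u ^ M • v)) ((b u : ℂ) : OnePoint ℂ)
            Kd := K
            hc := hc
            hM := hM
            hT := hκ
            hA := hA1.trans hAa
            hρ0 := hρ0p
            hρ1 := hρ01
            g0 := ?_
            lip0 := ?_
            step := ?_
            pert := ?_
            hol := ?_
            jet := ?_
            hTn := ?_
            att := ?_
            atp := ?_ }, rfl, rfl, fun u => Iff.rfl⟩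
  · intro s hs
    exact (hball1 s (ball_subset_ball hρ0δ hs)).1.1.differentiableWithinAt
  · intro u hu
    have h1 := (hball1 u (ball_subset_ball hρ0δ hu)).2
    rw [sub_zero] at h1
    rw [hxv]
    exact h1.trans (mul_le_mul_of_nonneg_right hAb (norm_nonneg _))
  · intro n u
    exact itm_succ _ N n _
  · intro u hu z hz
    have h1 := (hpert (u ^ M) (hpowM u hu) z hz).2
    rw [norm_pow] at h1
    rw [hR.f]
    exact h1.trans (mul_le_mul_of_nonneg_right hAa (by positivity))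
  · intro n U hU hUs hdiff hth u hu
    have h1 : DifferentiableAt ℂ
        (fun u => it (v0 + u ^ M • v) (N * n) (it (v0 + u ^ M • v) k (b u))) u :=
      (hdiff u hu).differentiableAt (hU.mem_nhds hu)
    have h2 := (hpert (u ^ M) (hpowM u (hUs hu)) _ (hth u hu)).1
    have h3 : ∀ j ≤ N, DifferentiableAt ℂ (fun u => it (v0 + u ^ M • v) j
        (it (v0 + u ^ M • v) (N * n) (it (v0 + u ^ M • v) k (b u)))) u := by
      intro j
      induction j with
      | zero => intro _; exact h1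
      | succ j ih =>
        intro hj
        exact lip_diff (ih (by omega)) (h2 j (by omega))
    have h4 := h3 N le_rfl
    have h5 : (fun u => it (v0 + u ^ M • v) N
        (it (v0 + u ^ M • v) (N * n) (it (v0 + u ^ M • v) k (b u)))) =
        fun u => it (v0 + u ^ M • v) (N * (n + 1)) (it (v0 + u ^ M • v) k (b u)) := by
      funext u
      exact (itm_succ _ N n _).symm
    rw [h5] at h4
    exact h4.differentiableWithinAt
  · intro n
    have h1 := exp_n (v := v) hM (N * n) (fun i _ => hdenx i) hcs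
    refine h1.congr_left fun s => ?_
    beta_reduce
    rw [hz0 (N * n), rp_XX htrne (N * n), hxv, htr n]
    ring
  · intro n
    have h1 := fcm_tail hq1 hterm (N * n)
    beta_reduce
    rw [hT, add_sub_add_left_eq_sub]
    have h2 : (1 / q1) ^ (N * n) = (1 / D.q) ^ n := by
      rw [pow_mul, ← hq1N, one_div_pow, one_div_pow]
    rw [h2] at h1
    exact h1.trans (mul_le_mul_of_nonneg_right hAc (by positivity))
  · intro z hz
    exact fc_att h hR hJ hM (fun i _ => hden i) hρ hb hb0 hK (fun e he => (hKd e he).1) hz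
  · intro p hp ε hε
    exact fc_atp h hR hM (fun i _ => hden i) hρ hb hb0 hK (fun e he => (hKd e he).2 p hp) hε

end Pool.Agent.H79.PJ
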