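import Pool.Agent.H79.PJ.RepPs

/-!
# Perturbations of an iterate of a rational map near its Julia set
-/

set_option autoImplicit false

open Filter Topology Polynomial Metric Set

namespace Pool.Agent.H79.PJ

open Pool.Agent.H44.Fatou Pool.Agent.H32.BT Pool.Agent.H79.Eul Pool.Agent.H79.Par Pool.Agent.H79.PB
open Pool.Agent.H44.DP (Ps dS)

theorem ev_add_smul {d : ℕ} (p q : Fin (d + 1) → ℂ) (t z : ℂ) :
    ev (p + t • q) z = ev p z + t * ev q z := by
  unfold ev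
  rw [Finset.mul_sum, ← Finset.sum_add_distrib]
  refine Finset.sum_congr rfl fun i _ => ?_
  simp only [Pi.add_apply, Pi.smul_apply, smul_eq_mul]
  ring

theorem ev_cont {d : ℕ} (p : Fin (d + 1) → ℂ) : Continuous (ev p) := by
  unfold ev
  fun_prop

private theorem fcp_alg {a b a' b' t : ℂ} {B : ℝ} (hB : 1 ≤ B) (ha : ‖a‖ ≤ B) (hb : ‖b‖ ≤ B)
    (ha' : ‖a'‖ ≤ B) (hb' : ‖b'‖ ≤ B) (hb0 : b ≠ 0) (hbi : ‖b‖⁻¹ ≤ B)
    (ht : ‖t‖ ≤ 1 / (2 * B ^ 2)) : b + t * b' ≠ 0 ∧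
      ‖(a + t * a') / (b + t * b') - a / b‖ ≤ 4 * B ^ 4 * ‖t‖ := by
  have hB0 : 0 < B := by linarith
  have hbn : 0 < ‖b‖ := norm_pos_iff.2 hb0
  have h1 : 1 / B ≤ ‖b‖ := by
    rw [div_le_iff₀ hB0]
    rw [inv_le_iff_one_le_mul₀ hbn] at hbi
    linarith
  have h2 : ‖t * b'‖ ≤ 1 / (2 * B) := by
    rw [norm_mul]
    calc ‖t‖ * ‖b'‖ ≤ 1 / (2 * B ^ 2) * B := mul_le_mul ht hb' (norm_nonneg _) (by positivity)
      _ = 1 / (2 * B) := by field_simp
  have h3 : 1 / (2 * B) ≤ ‖b + t * b'‖ := by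
    have h4 : ‖b‖ ≤ ‖b + t * b'‖ + ‖t * b'‖ := by
      calc ‖b‖ = ‖(b + t * b') - t * b'‖ := by rw [add_sub_cancel_right]
        _ ≤ _ := norm_sub_le _ _
    have h5 : 1 / B = 1 / (2 * B) + 1 / (2 * B) := by
      field_simp
      norm_num
    linarith
  have h6 : 0 < ‖b + t * b'‖ := lt_of_lt_of_le (by positivity) h3
  have h7 : b + t * b' ≠ 0 := norm_pos_iff.1 h6
  refine ⟨h7, ?_⟩
  have h8 : (a + t * a') / (b + t * b') - a / b = t * (a' * b - a * b') / (b * (b + t * b')) := by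
    rw [div_sub_div _ _ h7 hb0, mul_comm b (b + t * b')]
    congr 1
    ring
  rw [h8, norm_div, norm_mul, norm_mul, div_le_iff₀ (mul_pos hbn h6)]
  have h9 : ‖a' * b - a * b'‖ ≤ 2 * B ^ 2 := by
    calc ‖a' * b - a * b'‖ ≤ ‖a' * b‖ + ‖a * b'‖ := norm_sub_le _ _
      _ = ‖a'‖ * ‖b‖ + ‖a‖ * ‖b'‖ := by rw [norm_mul, norm_mul]
      _ ≤ B * B + B * B := add_le_add (mul_le_mul ha' hb (norm_nonneg _) hB0.le)
        (mul_le_mul ha hb' (norm_nonneg _) hB0.le)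
      _ = 2 * B ^ 2 := by ring
  have h10 : 1 / (2 * B ^ 2) ≤ ‖b‖ * ‖b + t * b'‖ := by
    calc 1 / (2 * B ^ 2) = 1 / B * (1 / (2 * B)) := by
          field_simp
      _ ≤ ‖b‖ * ‖b + t * b'‖ := mul_le_mul h1 h3 (by positivity) (norm_nonneg _)
  have ht0 := norm_nonneg t
  calc ‖t‖ * ‖a' * b - a * b'‖ ≤ ‖t‖ * (2 * B ^ 2) := mul_le_mul_of_nonneg_left h9 ht0
    _ = 4 * B ^ 4 * ‖t‖ * (1 / (2 * B ^ 2)) := by
        field_simp
        norm_num
    _ ≤ 4 * B ^ 4 * ‖t‖ * (‖b‖ * ‖b + t * b'‖) := mul_le_mul_of_nonneg_left h10 (by positivity)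

/-- one step, on a compact set without poles -/
theorem cpt_step {d : ℕ} {v0 : E d} {K : Set ℂ} (hK : IsCompact K)
    (hne : ∀ z ∈ K, ev v0.2 z ≠ 0) (v : E d) : ∃ A τ : ℝ, 1 ≤ A ∧ 0 < τ ∧
    ∀ t : ℂ, ‖t‖ ≤ τ → ∀ z ∈ K, ev (v0 + t • v).2 z ≠ 0 ∧
      ‖it (v0 + t • v) 1 z - it v0 1 z‖ ≤ A * ‖t‖ := by
  have hcont : ContinuousOn (fun z : ℂ => ‖ev v0.1 z‖ + ‖ev v0.2 z‖ + ‖ev v.1 z‖ + ‖ev v.2 z‖ +
      ‖ev v0.2 z‖⁻¹) K := by
    refine ContinuousOn.add ?_ ?_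
    · exact ((((ev_cont v0.1).norm.add (ev_cont v0.2).norm).add (ev_cont v.1).norm).add
        (ev_cont v.2).norm).continuousOn
    · exact (ev_cont v0.2).norm.continuousOn.inv₀ fun z hz => norm_ne_zero_iff.2 (hne z hz)
  obtain ⟨B0, hB0⟩ := hK.bddAbove_image hcont
  set B : ℝ := max B0 1 with hB
  have hB1 : 1 ≤ B := le_max_right _ _
  have hbd : ∀ z ∈ K, ‖ev v0.1 z‖ + ‖ev v0.2 z‖ + ‖ev v.1 z‖ + ‖ev v.2 z‖ +
      ‖ev v0.2 z‖⁻¹ ≤ B := fun z hz => (hB0 (mem_image_of_mem _ hz)).trans (le_max_left _ _)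
  have hB4 : 1 ≤ B ^ 4 := one_le_pow₀ hB1
  refine ⟨4 * B ^ 4, 1 / (2 * B ^ 2), by linarith, by positivity, fun t ht z hz => ?_⟩
  have h1 := hbd z hz
  have n1 := norm_nonneg (ev v0.1 z)
  have n2 := norm_nonneg (ev v0.2 z)
  have n3 := norm_nonneg (ev v.1 z)
  have n4 := norm_nonneg (ev v.2 z)
  have n5 := inv_nonneg.2 n2
  have key := fcp_alg (a := ev v0.1 z) (b := ev v0.2 z) (a' := ev v.1 z) (b' := ev v.2 z) (t := t)
    hB1 (by linarith) (by linarith) (by linarith) (by linarith) (hne z hz) (by linarith) ht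
  have e1 : ev (v0 + t • v).1 z = ev v0.1 z + t * ev v.1 z := ev_add_smul v0.1 v.1 t z
  have e2 : ev (v0 + t • v).2 z = ev v0.2 z + t * ev v.2 z := ev_add_smul v0.2 v.2 t z
  refine ⟨by rw [e2]; exact key.1, ?_⟩
  have e3 : it (v0 + t • v) 1 z = ev (v0 + t • v).1 z / ev (v0 + t • v).2 z := rfl
  have e4 : it v0 1 z = ev v0.1 z / ev v0.2 z := rfl
  rw [e3, e4, e1, e2]
  exact key.2

theorem it_one_lip {d : ℕ} {v0 : E d} {K : Set ℂ} (hK : IsCompact K) {η : ℝ} (hη : 0 ≤ η)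
    (hne : ∀ z ∈ cthickening η K, ev v0.2 z ≠ 0) : ∃ L : ℝ, 0 ≤ L ∧ ∀ z ∈ K, ∀ w : ℂ,
      ‖w - z‖ ≤ η → ‖it v0 1 w - it v0 1 z‖ ≤ L * ‖w - z‖ := by
  have hKc : IsCompact (cthickening η K) := hK.cthickening
  have hgn : ∀ z ∈ cthickening η K, z ∈ GN v0 1 := by
    intro z hz j hj
    obtain rfl : j = 0 := by omega
    exact hne z hz
  have hder : ∀ z ∈ cthickening η K, HasDerivAt (fun z => it v0 1 z) (trD v0 1 z) z :=
    fun z hz => gn_deriv (hgn z hz)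
  have hcont : ContinuousOn (fun z => trD v0 1 z) (cthickening η K) := by
    have h1 : ∀ z, trD v0 1 z = wv v0 z / ev v0.2 z ^ 2 := by
      intro z
      unfold trD
      rw [Finset.prod_range_one]
      rfl
    have h2 : (fun z => trD v0 1 z) = fun z => wv v0 z / ev v0.2 z ^ 2 := funext h1
    rw [h2]
    refine ContinuousOn.div ?_ ((ev_cont v0.2).pow 2).continuousOn
      fun z hz => pow_ne_zero 2 (hne z hz)
    exact ((wv_cont (d := d)).comp (continuous_const.prodMk continuous_id)).continuousOn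
  obtain ⟨L, hL⟩ := hKc.exists_bound_of_continuousOn hcont
  refine ⟨max L 0, le_max_right _ _, ?_⟩
  intro z hz w hw
  have hsub : closedBall z η ⊆ cthickening η K := closedBall_subset_cthickening hz η
  have h1 := Convex.norm_image_sub_le_of_norm_hasDerivWithin_le (𝕜 := ℂ) (s := closedBall z η)
    (f := fun z => it v0 1 z) (f' := fun z => trD v0 1 z) (C := max L 0)
    (fun y hy => (hder y (hsub hy)).hasDerivWithinAt)
    (fun y hy => (hL y (hsub hy)).trans (le_max_left _ _)) (convex_closedBall z η)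
    (mem_closedBall_self hη) (by rw [mem_closedBall, dist_eq_norm]; exact hw)
  exact h1

/-- `N` steps, on a compact set without poles -/
theorem cpt_iter {d : ℕ} {v0 : E d} (v : E d) {K : Set ℂ} (hK : IsCompact K) (N : ℕ)
    (hne : K ⊆ GN v0 N) : ∃ A τ : ℝ, 1 ≤ A ∧ 0 < τ ∧
    ∀ t : ℂ, ‖t‖ ≤ τ → ∀ z ∈ K, (∀ j < N, ev (v0 + t • v).2 (it (v0 + t • v) j z) ≠ 0) ∧
      ‖it (v0 + t • v) N z - it v0 N z‖ ≤ A * ‖t‖ := by
  induction N with
  | zero =>
    refine ⟨1, 1, le_rfl, one_pos, fun t _ z _ => ⟨fun j hj => absurd hj (by omega), ?_⟩⟩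
    have h1 : it (v0 + t • v) 0 z - it v0 0 z = 0 := sub_self _
    rw [h1, norm_zero]
    positivity
  | succ N ih =>
    have hsub : K ⊆ GN v0 N := fun z hz j hj => hne hz j (by omega)
    obtain ⟨A, τ, hA, hτ, h⟩ := ih hsub
    have hc : ContinuousOn (fun z => it v0 N z) K := fun z hz =>
      (gn_deriv (hsub hz)).continuousAt.continuousWithinAt
    have hKN : IsCompact ((fun z => it v0 N z) '' K) := hK.image_of_continuousOn hc
    have hopen : IsOpen {z : ℂ | ev v0.2 z ≠ 0} := isOpen_ne_fun (ev_cont v0.2) continuous_const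
    have hKNs : (fun z => it v0 N z) '' K ⊆ {z : ℂ | ev v0.2 z ≠ 0} := by
      rintro _ ⟨z, hz, rfl⟩
      exact hne hz N (Nat.lt_succ_self N)
    obtain ⟨η, hη, hηs⟩ := hKN.exists_cthickening_subset_open hopen hKNs
    obtain ⟨A', τ', hA', hτ', h'⟩ := cpt_step (hKN.cthickening (r := η)) (fun z hz => hηs hz) v
    obtain ⟨L, hL, hlip⟩ := it_one_lip hKN hη.le (fun z hz => hηs hz)
    refine ⟨A' + L * A, min (min τ τ') (η / A), ?_, ?_, ?_⟩
    · have : 0 ≤ L * A := by positivity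
      linarith
    · exact lt_min (lt_min hτ hτ') (by positivity)
    · intro t ht z hz
      have ht1 : ‖t‖ ≤ τ := ht.trans ((min_le_left _ _).trans (min_le_left _ _))
      have ht2 : ‖t‖ ≤ τ' := ht.trans ((min_le_left _ _).trans (min_le_right _ _))
      have ht3 : A * ‖t‖ ≤ η := by
        have h1 : ‖t‖ ≤ η / A := ht.trans (min_le_right _ _)
        rw [le_div_iff₀ (by linarith)] at h1
        linarith
      obtain ⟨h1, h2⟩ := h t ht1 z hz
      have hzN : it v0 N z ∈ (fun z => it v0 N z) '' K := ⟨z, hz, rfl⟩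
      have h3 : it (v0 + t • v) N z ∈ cthickening η ((fun z => it v0 N z) '' K) := by
        refine closedBall_subset_cthickening hzN η ?_
        rw [mem_closedBall, dist_eq_norm]
        exact h2.trans ht3
      obtain ⟨h4, h5⟩ := h' t ht2 _ h3
      have h6 := hlip _ hzN _ (h2.trans ht3)
      refine ⟨fun j hj => ?_, ?_⟩
      · rcases Nat.lt_succ_iff_lt_or_eq.1 hj with h7 | h7
        · exact h1 j h7
        · rw [h7]
          exact h4
      · have e1 : it (v0 + t • v) (N + 1) z = it (v0 + t • v) 1 (it (v0 + t • v) N z) := rfl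
        have e2 : it v0 (N + 1) z = it v0 1 (it v0 N z) := rfl
        rw [e1, e2]
        have h8 : it (v0 + t • v) 1 (it (v0 + t • v) N z) - it v0 1 (it v0 N z) =
            (it (v0 + t • v) 1 (it (v0 + t • v) N z) - it v0 1 (it (v0 + t • v) N z)) +
              (it v0 1 (it (v0 + t • v) N z) - it v0 1 (it v0 N z)) := by ring
        rw [h8]
        calc ‖(it (v0 + t • v) 1 (it (v0 + t • v) N z) - it v0 1 (it (v0 + t • v) N z)) +
              (it v0 1 (it (v0 + t • v) N z) - it v0 1 (it v0 N z))‖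
            ≤ A' * ‖t‖ + L * ‖it (v0 + t • v) N z - it v0 N z‖ :=
              (norm_add_le _ _).trans (add_le_add h5 h6)
          _ ≤ A' * ‖t‖ + L * (A * ‖t‖) := by gcongr
          _ = (A' + L * A) * ‖t‖ := by ring

theorem fc_pert {d : ℕ} {v0 : E d} {N : ℕ} {D : Ps} (hR : RepPs v0 N D) (v : E d) :
    ∃ A τ : ℝ, 1 ≤ A ∧ 0 < τ ∧
    ∀ t : ℂ, ‖t‖ ≤ τ → ∀ z ∈ thickening D.δ D.J,
      (∀ j < N, ev (v0 + t • v).2 (it (v0 + t • v) j z) ≠ 0) ∧
      ‖it (v0 + t • v) N z - it v0 N z‖ ≤ A * ‖t‖ := by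
  have h0 : cthickening D.δ D.J ⊆ GN v0 N := by
    have := hR.cl
    rwa [hR.G] at this
  obtain ⟨A, τ, hA, hτ, h⟩ := cpt_iter v (D.hJ.cthickening (r := D.δ)) N h0
  exact ⟨A, τ, hA, hτ, fun t ht z hz => h t ht z (thickening_subset_cthickening _ _ hz)⟩

end Pool.Agent.H79.PJ
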